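import Pool.Agent.helper3.T5.SpecA
import Pool.Agent.helper47.FT.A0
import Pool.Agent.Lib.PrimeSums

set_option autoImplicit false

/-!
# T5 (MP_16912e_nt), block S: assembly of the slices `SLU_stmt`, `SLL_stmt`, the rows `T1_stmt`, `BT_stmt`, and `MAIN_stmt`

RULES. Row `t5:XXX` is a file `Pool/Agent/<seat>/T5/XXX.lean`: `import Pool.Agent.helper82.T5.SpecS`, `set_option autoImplicit false`, `namespace Pool.Agent.T5`,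
`open Finset NumberField Pool.Agent.helper3.FT Pool.Agent.helper47.RA`, and `theorem XXX (hYYY : YYY_stmt) .. : XXX_stmt`, whose EXACT line is in the lock note (other statements of the
project only as hypotheses; an unused hypothesis may stay). Auxiliary lemmas are prefixed `XXX_`. No `convert`, `congr!`, `native_decide`, no double quotes.

AVAILABLE: everything imported by `Pool/Agent/helper3/T5/SpecA.lean` (see its header: `QF.norm_form`, `QF.absNorm_eq`, `QF.mul_bar`, ..), `Pool.Agent.helper28.LT.exists_fund` (`Pool/Agent/helper57/LT/DE.lean`),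
`Pool.Agent.helper3.FT.exists_QF_neg` (`Pool/Agent/helper47/FT/A0.lean`), `Pool/Agent/Lib/PrimeSums.lean` (Mertens). `D < -4` holds in all applications (`N` large).

Throughout `d = δ / 100`, `Y₂ = N ^ (1 / 2 + d)`, `N ^ (d / 100) = N ^ (δ / 10000)`, `Y * Y₂ = N ^ d * (Y * √N)`.
-/

namespace Pool.Agent.T5

open Finset NumberField Pool.Agent.helper3.FT Pool.Agent.helper47.RA

/-! ## Definitions -/

/-- the maximal weight -/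
noncomputable def MW (w : ℕ) : ℝ := ∏ p ∈ pr w, ((p : ℝ) / (p - 1)) ^ 2

section
variable {K : Type} [Field K] [NumberField K]

/-- the pairs `(a, α)` in the good region with `gcd (y(α), y(γ)) = g` -/
def GG (Q : QF K) (κ N Y d : ℝ) (g : ℕ) : Set (Ideal (𝓞 K) × 𝓞 K) :=
  {x | x.1 ∈ IA K Y ∧ x.2 ∈ AL Q x.1 (N ^ d * √(-(Q.D : ℝ))) ∧
    ∃ γ, Adm Q x.1 x.2 γ ∧ GoodR Q κ (N ^ (1 / 2 + d)) x.1 x.2 γ ∧ gd Q x.2 γ = g}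

/-- the same with `p² ∤ y(α)` for the primes `p` dividing `g` -/
def GB (Q : QF K) (κ N Y d : ℝ) (g : ℕ) : Set (Ideal (𝓞 K) × 𝓞 K) :=
  {x | x ∈ GG Q κ N Y d g ∧ ∀ p : ℕ, p.Prime → p ∣ g → ¬ (p : ℤ) ^ 2 ∣ Q.Y x.2}

/-- all pairs `(a, α)` with `gcd (y(α), y(γ)) = 1` -/
def G0 (Q : QF K) (N Y d : ℝ) : Set (Ideal (𝓞 K) × 𝓞 K) :=
  {x | x.1 ∈ IA K Y ∧ x.2 ∈ AL Q x.1 (N ^ d * √(-(Q.D : ℝ))) ∧ ∃ γ, Adm Q x.1 x.2 γ ∧ gd Q x.2 γ = 1}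

end

open Classical in
/-- evaluation at the chosen field of discriminant `D` -/
noncomputable def SF (φ : ∀ D : ℤ, Fld D → ℝ) (D : ℤ) : ℝ :=
  if h : Nonempty (Fld D) then φ D h.some else 0

/-- the odd numbers `g` with `w < g ≤ N ^ (d / 100)` -/
noncomputable def gR (w : ℕ) (N d : ℝ) : Finset ℕ :=
  (range (⌊N ^ (d / 100)⌋₊ + 1)).filter (fun g => Odd g ∧ w < g)

/-- `n⁴ · (m g + Z k²)/n²` and the other polynomials: with `n² Z = Z₁`, `n⁴ Λ = Λ₁`, `n⁴ A = A₁` -/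
def Zp {R : Type} [CommRing R] (k m r : R) : R := m ^ 2 + k * r
def Lp {R : Type} [CommRing R] (n k m g r : R) : R := n ^ 2 * m * g + Zp k m r * k ^ 2
def Ap {R : Type} [CommRing R] (n k m g r : R) : R := n ^ 2 * g * r - m * k * Zp k m r
/-- `dis · n¹⁰` -/
def Pp {R : Type} [CommRing R] (n k m g r : R) : R := Ap n k m g r ^ 2 - 4 * Zp k m r ^ 2 * Lp n k m g r

/-! ## Finiteness and elementary facts -/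

/-- **SFA** (short to medium). Finiteness. (1) `IA K Y ⊆ {a | absNorm a ≤ ⌊Y⌋₊}`, finite (`Ideal.finite_setOf_absNorm_le`). (2) `AL Q a X`: `v₁ α ^ 2 = absNorm (α)` (`Q.himag`, `Q.hnorm`) `= x² + t x y - k y²` for `α = x + y ω` (`QF.absNorm_eq`, `QF.norm_form`), `4 (..) = (2x + t y)² - D y² ≤ 4 absNorm a ^ 2 X`: `y` and then `x` are bounded (`D ≤ -1`),
so `α` is in the image of a finite set of pairs `(x, y)`. (3) A field exists for every negative fundamental discriminant: `exists_QF_neg`. -/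
def SFA_stmt : Prop :=
  (∀ (K : Type) [Field K] [NumberField K] (Y : ℝ), (IA K Y).Finite) ∧
  (∀ (K : Type) [Field K] [NumberField K] (Q : QF K), Q.D < 0 → ∀ (a : Ideal (𝓞 K)) (X : ℝ), (AL Q a X).Finite) ∧
  (∀ D : ℤ, IsFund D → D < 0 → Nonempty (Fld D))

/-- **SFC** (short to medium; from AIST). `Cen` is finite. Let `Z, Λ, Δ = -dis t` be as in `Cen` (`Z, Λ, Δ > 0`; `κ, N, Y, Y₂ > 0`): `Z ≤ Y`, `N/2 < Δ ≤ N`, so `Λ ≤ Y₂` (`l2`). AIST: `Δ n² = 4 Z² Λ - A² ≤ 4 Y² Y₂`, `Δ k² = 4 Z Λ² - C² ≤ 4 Y Y₂²`, `(Z g - Λ m)² = 4 Z² Λ k² - Δ (n k)² ≤ 4 Y² Y₂ k²`,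
`(Z g + Λ m)² = (Z g - Λ m)² + 4 Z Λ m g`, `m g = Λ n² - Z k²`, so `(Z g + Λ m)² = 4 Z Λ² n² - Δ (n k)² ≤ 4 Y Y₂² n²`; `Z, Λ ≥ 1`, so `|m|, |g| ≤ |Z g - Λ m| + |Z g + Λ m|` are bounded. All five coordinates lie in a bounded range. -/
def SFC_stmt : Prop := ∀ κ N Y Y₂ : ℝ, 0 < κ → 0 < N → 0 < Y → 0 < Y₂ → {t : Tpl | Cen κ N Y Y₂ t}.Finite

/-- **SMW** (short to medium). `MW w / √w → 0`. `MW w ≥ 1`. `p / (p - 1) = (1 - 1/p)⁻¹ ≤ exp (2 / p)` for `p ≥ 2` (`log (p/(p-1)) ≤ 1/(p-1) ≤ 2/p`); this gives only `(log w)^4` for `MW`, which is enough: `∑_{p ≤ w} 1/p ≤ log log w + C` (`sum_inv_le` in `Pool/Agent/Lib/PrimeSums.lean`), `MW w ≤ exp (4 log log w + 4 C) = C' (log w)^4`,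
and `(log w)^4 / √w → 0` (`isLittleO_log_rpow_atTop` or similar). -/
def SMW_stmt : Prop := (∀ w : ℕ, 1 ≤ MW w) ∧
  Filter.Tendsto (fun w : ℕ => MW w / √(w : ℝ)) Filter.atTop (nhds 0) ∧
  (∀ (w : ℕ) (t : Tpl), 0 ≤ fw w t ∧ fw w t ≤ MW w) ∧
  ∀ (K : Type) [Field K] [NumberField K] (Q : QF K) (w : ℕ) (a : Ideal (𝓞 K)) (α : 𝓞 K),
    0 ≤ wt Q w a α ∧ wt Q w a α ≤ MW w

/-- **SEU** (short). Euler product: `∏_{p ≤ w} (1 - p⁻²) → 1 / ζ(2) = 6 / π²` (`riemannZeta_eulerProduct` or `riemannZeta_eulerProduct_tprod`, `riemannZeta_two`). -/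
def SEU_stmt : Prop := Filter.Tendsto (fun w : ℕ => ∏ p ∈ pr w, (1 - 1 / (p : ℝ) ^ 2)) Filter.atTop (nhds (6 / Real.pi ^ 2))

/-- **STA** (short). `τ(g) ≤ 2 √g` (divisors come in pairs `e, g/e` with `min ≤ √g`), `∑_{g > w} 2 g^(-3/2) ≤ 6 / √w` (`g^(-3/2) ≤ 2 (1/√(g-1) - 1/√g)` for `g ≥ 2`; telescoping); `∑_{p > w} 1/p² ≤ 2/w` (all integers, telescoping). -/
def STA_stmt : Prop := ∀ (w : ℕ) (S : Finset ℕ), 1 ≤ w → (∀ g ∈ S, w < g) →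
  ∑ g ∈ S, (g.divisors.card : ℝ) / (g : ℝ) ^ 2 ≤ 6 / √(w : ℝ) ∧ ∑ g ∈ S, 1 / (g : ℝ) ^ 2 ≤ 2 / (w : ℝ)

/-- **SFP** (short to medium; from AIST). Local weights and the conductor. `p ∤ n`: by definition of `fp`. `p ∣ n` and `fp p t ≠ 0`: `p ∤ k`, `p ∤ g`, `p ∥ m`. `Z k² = Λ n² - m g`: `Z k² = - m g` modulo `p²`, so `p ∥ Z` (for `p = 2`: `Z = 2` modulo 4); `n R' = g² - Λ k²`: `p ∤ Λ`. `n C = Z g + Λ m`; `k² n C = (Z k²) g + (Λ k²) m = g (Λ n² - m g) + m (g² - n R') = n (g Λ n - m R')`, so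
`k² C = g Λ n - m R'` is divisible by `p`: `p ∣ C`. `dis k² = C² - 4 Z Λ²`. `p` odd: `p² ∤ 4 Z Λ²`, so `p² ∤ dis`. `p = 2`: `C = 2 τ`, `dis k² = 4 (τ² - Z Λ²)`, `Z Λ² = 2` modulo 4, so `τ² - Z Λ²` is `2` or `3` modulo 4; `k² = 1` modulo 8, so `dis = 8` or `12` modulo 16.
Second claim: `dis t = D₀ f²`, `p ∣ f`: `p` odd: `p² ∣ dis`. `p = 2`: `D₀ = 1` modulo 4 and `f = 2 f'`: `4 D₀ f'²` is `4` (`f'` odd) or `0` modulo 16; `D₀ = 4 m`: `16 ∣ dis`. -/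
def SFP_stmt : Prop := (∀ (p : ℕ) (t : Tpl), p.Prime → IsT t → fp p t ≠ 0 → Pfund p (dis t)) ∧
  ∀ (w : ℕ) (t : Tpl) (f : ℕ) (D₀ : ℤ), IsT t → fw w t ≠ 0 → IsFund D₀ → dis t = D₀ * (f : ℤ) ^ 2 → 1 ≤ f →
    ∀ p : ℕ, p.Prime → p ∣ f → w < p

/-- **STW** (short; from AIST). `p` odd, `p² ∣ dis`, `p ∣ Z Λ`. `Λ n² = m g + Z k²`, `dis (n k)² = (Z g - Λ m)² - 4 Z² Λ k²`. If `p ∣ Z`: `p ∣ Z g - Λ m`, so `p ∣ Λ m`; `p ∣ m` or `p ∣ Λ`, and in the second case `p ∣ m g`. If `p ∤ Z`, `p ∣ Λ`: `p ∣ (Z g - Λ m)²`, so `p ∣ g`, `p² ∣ (Z g - Λ m)²`, so `p² ∣ 4 Z² Λ k²`, `p² ∣ Λ k²`; but `p ∣ Z k² = Λ n² - m g`, so `p ∣ k`. -/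
def STW_stmt : Prop := ∀ (t : Tpl) (p : ℕ), IsT t → p.Prime → p ≠ 2 → (p : ℤ) ^ 2 ∣ dis t →
  ((p : ℤ) ∣ t.2.2.2 ∨ (p : ℤ) ∣ lam t) → (p : ℤ) ∣ t.2.1 * t.2.2.1 ∧ (p ∣ t.1.1 * t.1.2 ∨ (p : ℤ) ∣ t.2.2.2)

/-! ## Upper bound for the slices -/

/-- **SUA** (medium; from SFA, SMW, AGEX, AALW, AFUL). One field, upper bound. `C = C₂ + C_B` (constants of L2, LB), `ε₁ = ε / (3 + 3 MW w)`; `N₀` the maximum of the three `N₀` and `10` (so `Q.D < -4`). Fix `a ∈ IA K Y`, `a ∉ EX`, and the finset `P` of `AL Q a (N^d √(-D))` (SFA). L1: `∑_P wt ≥ (π - ε₁) N^d`. `P₂` = the `α ∈ P` with some `γ`, `IsGam a α γ`, `¬ GoodR`: L2: `∑ wt ≤ (C₂ κ + ε₁) N^d`.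
`P_B` = the `α ∈ P`, not in `P₂`, with all `alw Q p a α` (`p ≤ w`) and the alternative of LB for some `γ`: at most `(C_B / w + ε₁) N^d` elements, each of weight `≤ MW w`. Let `α ∈ P`, `wt ≠ 0` (so all `alw Q p a α`), `α ∉ P₂ ∪ P_B`. `γ` by AGEX (`a⁵` principal, `α ∈ a²`); `α ∉ P₂`: `GoodR`, so `Y γ ≠ 0` (`κ Y₂ ≤ lamI`, so the left side of the third inequality is positive).
`α ∉ P_B`: no prime `p > w` with `(p) a² ∣ (α)`; no prime `p > w` with `p² ∣ Y α`, `p ∣ Y γ`; `gd ≤ N^(d/100)`. For `p ≤ w`: `¬ (p) a² ∣ (α)` by AALW (2). So `Adm Q a α γ`. If `gd = 1`: `(a, α) ∈ GG .. 1`. Otherwise `g = gd > 1`; AFUL (with `Cont1` = `Adm.pL`) and AALW (1): no prime `p ≤ w` divides `g`; so all its primes are `> w ≥ 2`, `g` is odd, `w < g ≤ N^(d/100)`, and for `p ∣ g`: `p > w`, `p ∣ Y γ`, so `p² ∤ Y α`: `(a, α)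 ∈ GB .. g`.
Sum over the `ncard IA - ncard EX` ideals `a` (`EX ⊆ IA`, both finite); the pairs `(a, α)` are different; all weights are `≥ 0` and the sets `GG`, `GB` are finite. -/
def SUA_stmt (d : ℝ) : Prop := 0 < d → L1_stmt d → L2_stmt d → LB_stmt d → ∃ C : ℝ, 1 ≤ C ∧
  ∀ κ : ℝ, 0 < κ → κ ≤ 1 / 100 → ∀ w : ℕ, 2 ≤ w → ∀ ε : ℝ, 0 < ε → ∃ N₀ : ℝ,
  ∀ (K : Type) [Field K] [NumberField K] (Q : QF K) (N Y : ℝ), Module.finrank ℚ K = 2 → N₀ ≤ N →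
  N / 2 < -(Q.D : ℝ) → -(Q.D : ℝ) ≤ N → Y ≤ N →
  (Real.pi - (C * κ + MW w * (C / w) + ε)) * N ^ d *
      (((IA K Y).ncard : ℝ) - ((EX Q Y (N ^ (1 / 2 - d / 2))).ncard : ℝ)) ≤
    (∑ᶠ x ∈ GG Q κ N Y d 1, wt Q w x.1 x.2) + MW w * ∑ g ∈ gR w N d, ((GB Q κ N Y d g).ncard : ℝ)

/-- **SUB** (medium; from ALG, ACEN, SMW, SFA). Injection for `gcd = 1`. For `D ∈ DN N` with field `E` (`E.Q.D = D`, `D < -4` as `N ≥ 10`) let `φ_D` be the map of ALG. For `x = (a, α) ∈ GG .. 1` with `γ`: `TupOf Q a α γ 1 (φ a α)`. `φ a α ∈ Cen κ N Y Y₂`: ACEN with `d = 1` (`N * 1 ^ 2 = N`; `Y₂ √(-D) / √N = N^d √(-D)`). `dis (φ a α) = D`, so different `D` give different tuples, and for one `D` the map is injective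
(second clause of ALG). `fw w (φ a α) = ∏ fp = ∏ wf = wt Q w a α` (`TupOf.f`, `¬ p ∣ 1`). So the left side is the sum of `fw w` over the image, a subset of `F`; `fw ≥ 0`. -/
def SUB_stmt : Prop := ALG_stmt → ∀ d κ N Y : ℝ, 0 < d → 0 < κ → 10 ≤ N → 0 < Y → ∀ (w : ℕ) (F : Finset Tpl),
  (∀ t, Cen κ N Y (N ^ (1 / 2 + d)) t → t ∈ F) →
  ∑ D ∈ DN N, SF (fun _ E => ∑ᶠ x ∈ GG E.Q κ N Y d 1, wt E.Q w x.1 x.2) D ≤ ∑ t ∈ F, fw w t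

/-- **SUC** (medium; from ALG, ACEN, SFA, SFC). Injection for `gcd = g`. As SUB: for `x = (a, α) ∈ GB .. g`, `t = φ_D a α` satisfies `TupOf Q a α γ g t`, `t ∈ Cen κ (N g²) Y Y₂` (ACEN with `d = g`), `dis t = D g²` (so `g² ∣ dis t`, and `D` is determined by `t`), `TupOf.dd`, and `n g = Y α` with `p² ∤ Y α` for the primes `p ∣ g`: `gcd (n, g) = 1`.
The image `F` (over all `D`) is a finset of tuples as in BT with `d = g`, of the same cardinality as the left side. -/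
def SUC_stmt (δ : ℝ) : Prop := 0 < δ → δ ≤ 1 / 10 → ALG_stmt → BT_stmt δ → ∀ κ : ℝ, 0 < κ → ∃ C N₀ : ℝ, 1 ≤ C ∧ ∀ N Y : ℝ, N₀ ≤ N →
  N ^ (0.39 : ℝ) ≤ Y → Y ≤ N ^ (1 / 2 - δ) → ∀ g : ℕ, 3 ≤ g → Odd g → (g : ℝ) ≤ N ^ (δ / 10000) →
  ∑ D ∈ DN N, SF (fun _ E => ((GB E.Q κ N Y (δ / 100) g).ncard : ℝ)) D ≤
    (C * g.divisors.card / (g : ℝ) ^ 2 + N ^ (-(δ / 4))) * (Y * N ^ (1 / 2 + δ / 100))

/-- **SUD** (short to medium; from SUC, STA). Sum over `g`. `g ∈ gR w N (δ/100)`, `w ≥ 2`: `g ≥ 3` odd, `g ≤ N^(δ/10000)`. `∑_g C τ(g)/g² ≤ 6 C / √w` (STA) and `∑_g N^(-δ/4) ≤ (N^(δ/10000) + 1) N^(-δ/4) ≤ ε` for large `N`. -/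
def SUD_stmt (δ : ℝ) : Prop := 0 < δ → δ ≤ 1 / 10 → ALG_stmt → BT_stmt δ → ∀ κ : ℝ, 0 < κ → ∃ C : ℝ, 1 ≤ C ∧ ∀ w : ℕ, 2 ≤ w →
  ∀ ε : ℝ, 0 < ε → ∃ N₀ : ℝ, ∀ N Y : ℝ, N₀ ≤ N → N ^ (0.39 : ℝ) ≤ Y → Y ≤ N ^ (1 / 2 - δ) →
  ∑ g ∈ gR w N (δ / 100), ∑ D ∈ DN N, SF (fun _ E => ((GB E.Q κ N Y (δ / 100) g).ncard : ℝ)) D ≤
    (C / √(w : ℝ) + ε) * (Y * N ^ (1 / 2 + δ / 100))

/-- **SUE** (medium; from SUA, SUB, SUD, SFA, SFC, SMW). The inequality for fixed `κ, w`. Write `A = ∑_{D ∈ DN N} cA D Y`, `E = ∑ cE D Y (N^(1/2 - δ/200))` (both are evaluations at the chosen field, `SF`; `1/2 - δ/200 = 1/2 - d/2`). SUA for every `D ∈ DN N` with a field (`E.fin`, `E.hD`; without a field all terms are 0), with `ε/4`; sum over `D`; SUB with the finset `F` of `Cen` (SFC) and SUD with `ε/(4 MW w)`;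
TAS with `ε/4`; `Y ≤ N`. `Y Y₂ = N^d (Y √N)`. So `(π - (C₁ κ + MW w C₁/w + ε/4)) N^d (A - E) ≤ N^d Y √N (μ κ (6/π²) ∏ + ε/4 + MW w C_κ/√w + ε/4)`; divide by `N^d`; `MW w / w ≤ MW w / √w`; `E ≤ N^(-c) Y √N` (EXC); the coefficient of `A - E ≥ 0` is at most `π`. `C` depends only on L2, LB; `C'` on `κ`. -/
def SUE_stmt (δ : ℝ) : Prop := 0 < δ → δ ≤ 1 / 10 → ALG_stmt → L1_stmt (δ / 100) → L2_stmt (δ / 100) → LB_stmt (δ / 100) → BT_stmt δ →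
  EXC_stmt δ → ∀ μ : ℝ → ℝ, (∀ κ : ℝ, 0 < κ → κ ≤ 1 / 100 → ∀ w : ℕ, 2 ≤ w → ∀ ε : ℝ, 0 < ε → ∃ N₀ : ℝ, ∀ N Y : ℝ, N₀ ≤ N →
    N ^ (0.39 : ℝ) ≤ Y → Y ≤ N ^ (1 / 2 - δ) →
    ∀ F : Finset Tpl, (∀ t, t ∈ F ↔ Cen κ N Y (N ^ (1 / 2 + δ / 100)) t) →
      |∑ t ∈ F, fw w t - Y * N ^ (1 / 2 + δ / 100) * (μ κ * (6 / Real.pi ^ 2) *
        ∏ p ∈ pr w, (1 - 1 / (p : ℝ) ^ 2))| ≤ ε * (Y * N ^ (1 / 2 + δ / 100))) →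
  ∃ C : ℝ, 1 ≤ C ∧ ∀ κ : ℝ, 0 < κ → κ ≤ 1 / 100 → ∃ C' : ℝ, 1 ≤ C' ∧ ∀ w : ℕ, 2 ≤ w → ∀ ε : ℝ, 0 < ε → ∃ N₀ : ℝ, ∀ N Y : ℝ, N₀ ≤ N →
    N ^ (0.39 : ℝ) ≤ Y → Y ≤ N ^ (1 / 2 - δ) →
    (Real.pi - (C * κ + C' * (MW w / √(w : ℝ)) + ε)) * ∑ D ∈ DN N, (cA D Y : ℝ) ≤
      (μ κ * (6 / Real.pi ^ 2) * (∏ p ∈ pr w, (1 - 1 / (p : ℝ) ^ 2)) + C' * (MW w / √(w : ℝ)) + ε) * (Y * √N)

/-- **SLU** (short to medium; from SUE, SMW, SEU and the statements ALG, L1, L2, LB, BT, EXC, TAS). The limit. `μ`, `C₀` from TAS: `|μ κ - π²/2 (1 - 1/√2)| ≤ C₀ κ`. `c0 π = π²/2 (1 - 1/√2) (6/π²)²`. Given `ε`: `κ` small (all terms `C κ`, `C₀ κ` small), then `w` large (`MW w/√w → 0`, product → `6/π²`), then the `ε` of SUE small: the coefficient on the left is at least `π (1 - η)` and the one on the right at most `π c0 + η`. -/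
def SLUA_stmt (δ : ℝ) : Prop := 0 < δ → δ ≤ 1 / 10 → ALG_stmt → L1_stmt (δ / 100) → L2_stmt (δ / 100) → LB_stmt (δ / 100) → BT_stmt δ →
  EXC_stmt δ → TAS_stmt δ → SLU_stmt δ

/-! ## Lower bound for the slices -/

/-- **SLA** (short to medium; from SFA, SMW). One field, lower bound. For `a ∈ IA K Y`, `a ∉ EX`: `∑_{α : (a, α) ∈ G0} wt ≤ ∑_{AL} wt ≤ (π + ε) N^d` (L1, `wt ≥ 0`). For `a ∈ EX`: at most `C N^d` elements (LE), weight `≤ MW w`. Sum over `a`. -/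
def SLA_stmt (d : ℝ) : Prop := 0 < d → L1_stmt d → LE_stmt d → ∃ C : ℝ, 1 ≤ C ∧
  ∀ w : ℕ, ∀ ε : ℝ, 0 < ε → ∃ N₀ : ℝ,
  ∀ (K : Type) [Field K] [NumberField K] (Q : QF K) (N Y : ℝ), Module.finrank ℚ K = 2 → N₀ ≤ N →
  N / 2 < -(Q.D : ℝ) → -(Q.D : ℝ) ≤ N →
  (∑ᶠ x ∈ G0 Q N Y d, wt Q w x.1 x.2) ≤
    (Real.pi + ε) * N ^ d * ((IA K Y).ncard : ℝ) + MW w * C * N ^ d * ((EX Q Y (N ^ (1 / 2 - d / 2))).ncard : ℝ)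

/-- **SLB** (medium; from ALG, SFA, SMW). Tuples with fundamental discriminant. `t ∈ F`, `D = dis t`, `D ∈ DN N`, `E` the chosen field (SFA (3)), `E.Q.D = D`. ALG (third clause) with `f = 1` (`Z > Y/2 > 1` as `Y > 2`; `4 Z ≤ 4 Y < N/2 < -D`): `a, α, γ` with `Adm`, `gd = 1`, `φ a α = t`, `a⁵` principal, `a` not principal; `TupOf .. 1 t`: `Z = absNorm a`: `a ∈ IA K Y`. `α ∈ AL`: `v₁ α ^ 2 = absNorm (α) = Z² lam t`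
(`Q.himag`, `Q.hnorm`; `α ∈ a²`, `TupOf.L`) and `lam t √N ≤ Y₂ √(-D)` (`Cen.l2`), `Y₂ / √N = N^d`. `fw w t = wt Q w a α` (`TupOf.f`). `t ↦ (D, a, α)` is injective as `φ a α = t`. So the left side is at most the sum over all of `G0` (finite, `wt ≥ 0`). -/
def SLB_stmt : Prop := ALG_stmt → ∀ d κ N Y : ℝ, 0 < d → 0 < κ → 10 ≤ N → 2 < Y → 8 * Y < N → ∀ (w : ℕ) (F : Finset Tpl),
  (∀ t ∈ F, Cen κ N Y (N ^ (1 / 2 + d)) t ∧ IsFund (dis t)) →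
  ∑ t ∈ F, fw w t ≤ ∑ D ∈ DN N, SF (fun _ E => ∑ᶠ x ∈ G0 E.Q N Y d, wt E.Q w x.1 x.2) D

/-- T3w: the large conductors, in the (weaker) form used by SLC: `T3_stmt` with one more hypothesis (a prime `p ≤ N^(1/2 + δ/100) / Y` of `f` does not divide `Z Λ`). `T3_stmt δ` implies it trivially. -/
def T3w_stmt (δ : ℝ) : Prop :=
  ∀ κ : ℝ, 0 < κ → ∃ c N₀ : ℝ, 0 < c ∧ ∀ N Y : ℝ, N₀ ≤ N →
    N ^ (0.39 : ℝ) ≤ Y → Y ≤ N ^ (1 / 2 - δ) → ∀ F : Finset Tpl,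
    (∀ t ∈ F, Cen κ N Y (N ^ (1 / 2 + δ / 100)) t ∧
      ∃ (f : ℕ) (D₀ : ℤ), IsFund D₀ ∧ dis t = D₀ * (f : ℤ) ^ 2 ∧
        (∀ p : ℕ, p.Prime → p ∣ f → N ^ (δ / 10000) < p ∧
          ((p : ℝ) ≤ N ^ (1 / 2 + δ / 100) / Y → ¬ (p : ℤ) ∣ t.2.2.2 * lam t)) ∧
        N ^ (1 / 2 + δ / 100) / Y < f) →
    (F.card : ℝ) ≤ N ^ (-c) * (Y * N ^ (1 / 2 + δ / 100))

/-- **SLC** (medium; from AIST, SFP, STW and the statements T1, TW, T3w, T4). Tuples with a conductor. Let `t ∈ F`. `dis t = D₀ f²`, `f ≥ 1`, `IsFund D₀` (`exists_fund`, `dis t < 0`, AIST last clause); `f ≥ 2`. SFP: all primes of `f` are `> w ≥ 2`. `P = N^(δ/10000)`, `p₀ = N^(1/2 + δ/100) / Y`.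
(i) some prime `p ∣ f` with `p ≤ P`: `p² ∣ dis t`: T1. (ii) all primes of `f` are `> P` and some prime `p ∣ f` with `p ≤ p₀` divides `Z Λ`: `p² ∣ dis t`, STW: TW (`P < p ≤ p₀`). (iii) all primes `> P`, no such `p`, `f ≤ p₀`: every prime of `f` is `≤ f ≤ p₀`, so `IsCoprime f (Z Λ)`: T4 (`f > P` since `f` has a prime factor). (iv) all primes `> P`, no such `p`, `f > p₀`: T3w. `F` is the union of four subsets; `N^(-c) ≤ ε/4` for large `N`. -/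
def SLC_stmt (δ : ℝ) : Prop := 0 < δ → δ ≤ 1 / 10 → T1_stmt δ → TW_stmt δ → T3w_stmt δ → T4_stmt δ →
  ∀ κ : ℝ, 0 < κ → ∃ C : ℝ, 1 ≤ C ∧ ∀ w : ℕ, 2 ≤ w → ∀ ε : ℝ, 0 < ε → ∃ N₀ : ℝ, ∀ N Y : ℝ, N₀ ≤ N →
  N ^ (0.39 : ℝ) ≤ Y → Y ≤ N ^ (1 / 2 - δ) → ∀ F : Finset Tpl,
  (∀ t ∈ F, Cen κ N Y (N ^ (1 / 2 + δ / 100)) t ∧ fw w t ≠ 0 ∧ ¬ IsFund (dis t)) →
  (F.card : ℝ) ≤ (C / w + ε) * (Y * N ^ (1 / 2 + δ / 100))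

/-- **SLD** (medium; from SLA, SLB, SLC, SFA, SFC, SMW). The inequality for fixed `κ, w`. `F` the finset of `Cen` (SFC); `∑_F fw ≤ ∑_{IsFund (dis t)} fw + MW w #{t ∈ F : fw ≠ 0, ¬ IsFund (dis t)}`. SLB and SLA (summed over `D ∈ DN N`, `SF`, `cA`, `cE`; all fields exist) for the first, SLC for the second; TAS; EXC; `Y Y₂ = N^d (Y √N)`; divide by `N^d`. For `N` large: `2 < Y`, `8 Y < N`. `MW w C / w ≤ C MW w / √w`; `MW w C N^(-c) ≤ ε/4` for large `N`. -/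
def SLD_stmt (δ : ℝ) : Prop := 0 < δ → δ ≤ 1 / 10 → ALG_stmt → L1_stmt (δ / 100) → LE_stmt (δ / 100) → EXC_stmt δ → T1_stmt δ →
  TW_stmt δ → T3w_stmt δ → T4_stmt δ →
  ∀ μ : ℝ → ℝ, (∀ κ : ℝ, 0 < κ → κ ≤ 1 / 100 → ∀ w : ℕ, 2 ≤ w → ∀ ε : ℝ, 0 < ε → ∃ N₀ : ℝ, ∀ N Y : ℝ, N₀ ≤ N →
    N ^ (0.39 : ℝ) ≤ Y → Y ≤ N ^ (1 / 2 - δ) →
    ∀ F : Finset Tpl, (∀ t, t ∈ F ↔ Cen κ N Y (N ^ (1 / 2 + δ / 100)) t) →
      |∑ t ∈ F, fw w t - Y * N ^ (1 / 2 + δ / 100) * (μ κ * (6 / Real.pi ^ 2) *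
        ∏ p ∈ pr w, (1 - 1 / (p : ℝ) ^ 2))| ≤ ε * (Y * N ^ (1 / 2 + δ / 100))) →
  ∀ κ : ℝ, 0 < κ → κ ≤ 1 / 100 → ∃ C' : ℝ, 1 ≤ C' ∧ ∀ w : ℕ, 2 ≤ w → ∀ ε : ℝ, 0 < ε → ∃ N₀ : ℝ, ∀ N Y : ℝ, N₀ ≤ N →
    N ^ (0.39 : ℝ) ≤ Y → Y ≤ N ^ (1 / 2 - δ) →
    (μ κ * (6 / Real.pi ^ 2) * (∏ p ∈ pr w, (1 - 1 / (p : ℝ) ^ 2)) - C' * (MW w / √(w : ℝ)) - ε) * (Y * √N) ≤
      (Real.pi + ε) * ∑ D ∈ DN N, (cA D Y : ℝ)

/-- **SLLA** (short to medium; from SLD, SMW, SEU). The limit, as SLUA. -/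
def SLLA_stmt (δ : ℝ) : Prop := 0 < δ → δ ≤ 1 / 10 → ALG_stmt → L1_stmt (δ / 100) → LE_stmt (δ / 100) → EXC_stmt δ → T1_stmt δ →
  TW_stmt δ → T3w_stmt δ → T4_stmt δ → TAS_stmt δ → SLL_stmt δ

/-! ## Local counts, T1, BT -/

/-- **SQ0** (short; from AIST). The polynomials. `n² Z = m² + k R` (AIST), so `n² Z = Zp`; `n⁴ Λ = n² (m g + Z k²) = Lp`; `n⁴ A = n² (g R - m k Z) = Ap`; `dis n^10 = n^8 (A² - 4 Z² Λ) = Ap² - 4 Zp² Lp`. Ring map `ℤ → ZMod q`: the last claim. -/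
def SQ0_stmt : Prop := ∀ t : Tpl, IsT t →
  Zp (t.1.2 : ℤ) t.2.1 (RR t) = (t.1.1 : ℤ) ^ 2 * t.2.2.2 ∧
  Lp (t.1.1 : ℤ) t.1.2 t.2.1 t.2.2.1 (RR t) = (t.1.1 : ℤ) ^ 4 * lam t ∧
  Pp (t.1.1 : ℤ) t.1.2 t.2.1 t.2.2.1 (RR t) = (t.1.1 : ℤ) ^ 10 * dis t

/-- **SQ1** (medium; pure ring theory). The units. `n, 2` units. Put `Z = Zp / n²`, `Λ = Lp / n⁴`, `A = Ap / n⁴` (divisions by units), `n C = Z g + Λ m`. Identities: `Λ n² = m g + Z k²`, `n² Z = m² + k r`, `n² A = g r - m k Z`, `k A = Z g - Λ m` (`k Ap = n² g Zp - m Lp`). `Pp = 0`: `A² = 4 Z² Λ`. `k² (A² - 4 Z² Λ) = n² (C² - 4 Z Λ²)` (from `(Z g - Λ m)² = (Z g + Λ m)² - 4 Z Λ m g`), so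
`C² = 4 Z Λ²`. `Z, Λ` units; `l = A / (2 Z)`, `z = C / (2 Λ)`: `l² = Λ`, `z² = Z`. `2 Z g = n C + k A`, `2 Λ m = n C - k A`: `g = n l²/z + k l`, `m = n z - k z²/l`. `k r = n² Z - m²`, `g r = n² A + m k Z`, and `Λ n² = m g + Z k²` is a unit: `r = (m (g r) + Z k (k r)) / (Λ n²)`. So `(m, g, r)` is determined by `(z, l)` (and `n, k`): the number of solutions is at most `(card R)²`.
(Write it as: an injective map from the finset of solutions to `R × R`, `(m, g, r) ↦ (z, l)`, with `Ring.inverse`.) -/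
def SQ1_stmt : Prop := ∀ (R : Type) [CommRing R] [Fintype R] (n k : R), IsUnit (2 : R) → IsUnit n →
  {x : R × R × R | IsUnit (Zp k x.1 x.2.2) ∧ IsUnit (Lp n k x.1 x.2.1 x.2.2) ∧ Pp n k x.1 x.2.1 x.2.2 = 0}.ncard ≤
    Fintype.card R ^ 2

/-- **SQ2** (medium; from SQ1). `p` odd prime, `p ∤ n`, `gcd (n, k) = 1` not needed: `R = ZMod (p²)`; `p ∣ x` in `R` means `x` is a nonunit; at most `p` elements of `R` are divisible by `p`. Solutions of `Pp = 0`. (a) `Zp, Lp` units: at most `p⁴` by SQ1. (b) `p ∣ k`, `p ∣ m`: `p ∣ Zp`, `Zp² = 0`, `Ap = n² g r` modulo `p²` (as `p ∣ m k`, `p ∣ Zp`), so `(g r)² = 0`, `p ∣ g` or `p ∣ r`: at most `2 p⁴`.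
(c) `p ∣ k`, `p ∤ m`: `Zp` is a unit; nonunit `Lp = n² m g` (`k² = 0`), so `p ∣ g`, `p ∣ Ap`, `Ap² = 0`, `4 Zp² n² m g = 0`, so `g = 0`: at most `p⁴`. (d) `p ∤ k`: if `Zp` is a unit then `p ∣ Lp`, `p ∣ Ap`, `Ap² = 0`, `Lp = 0`; `k Ap = n² g Zp - m Lp`: `p ∣ g`; `Lp = n² m g + Zp k²`: `p ∣ k`, impossible. So `p ∣ Zp`, `p ∣ Ap` (`Ap² = 4 Zp² Lp`), `p ∣ m Lp`, so `p ∣ m` or (`p ∣ Lp`, `p ∣ m g`):
`p ∣ m g`. `p ∣ m`: `Zp = m² + k r`: `p ∣ r`: at most `p · p² · p`. `p ∤ m`, `p ∣ g`: `r = - m²/k` modulo `p`: for given `m` at most `p` values: at most `p² · p · p`. Total at most `4 p⁴`. -/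
def SQ2_stmt : Prop := ∀ (p : ℕ), p.Prime → p ≠ 2 → ∀ n k : ZMod (p ^ 2), IsUnit n →
  {x : ZMod (p ^ 2) × ZMod (p ^ 2) × ZMod (p ^ 2) | Pp n k x.1 x.2.1 x.2.2 = 0}.ncard ≤ 4 * p ^ 4

/-- **SQ3** (medium; from SQ1). `d` odd, `n` prime to `d`. For each of the `τ(d)` factorisations `d = d₁ d₂`, `gcd (d₁, d₂) = 1`: `ZMod (d²) → ZMod (d₁²) × ZMod (d₂²)` is injective (Chinese remainder theorem), the image of a solution satisfies: `m, g` divisible by `d₁` modulo `d₁²` (at most `d₁ · d₁ · d₁²` triples), and modulo `d₂²`: `Zp`, `Lp` units and `Pp = 0` (at most `(d₂²)²` triples, SQ1). Together at most `d₁⁴ d₂⁴ = d⁴`.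
Here `(m, g, r) : ℤ³`, the conditions depend only on the classes modulo `d²`; count the triples in `(range (d²))³`. -/
def SQ3_stmt : Prop := ∀ (d : ℕ) (n k : ℤ), Odd d → 1 ≤ d → IsCoprime n (d : ℤ) → ∀ S : Finset (ℤ × ℤ × ℤ),
  (∀ x ∈ S, (0 ≤ x.1 ∧ x.1 < (d : ℤ) ^ 2) ∧ (0 ≤ x.2.1 ∧ x.2.1 < (d : ℤ) ^ 2) ∧ (0 ≤ x.2.2 ∧ x.2.2 < (d : ℤ) ^ 2) ∧
    ∃ d₁ d₂ : ℕ, d = d₁ * d₂ ∧ Nat.Coprime d₁ d₂ ∧ (d₁ : ℤ) ∣ x.1 ∧ (d₁ : ℤ) ∣ x.2.1 ∧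
      IsCoprime (d₂ : ℤ) (Zp k x.1 x.2.2 * Lp n k x.1 x.2.1 x.2.2) ∧ (d₂ : ℤ) ^ 2 ∣ Pp n k x.1 x.2.1 x.2.2) →
  S.card ≤ d.divisors.card * d ^ 4

/-- **SQ4** (short to medium; from AIST). `p ∣ n`. First claim: `k⁸ dis = m (k² m R'² + 4 g⁵)` modulo `p` (as in SFP: `k² C = g Λ n - m R'`; `k⁸ dis = k⁶ (C² - 4 Z Λ²) = k² (k² C)² - 4 (Z k²) (Λ k²)²`, `Z k² = - m g`, `Λ k² = g²` modulo `p`). Second claim: in the field `ZMod p`, `p` odd, `k ≠ 0`: `m = 0`: `p²` triples; `m ≠ 0` and `k² m r² + 4 g⁵ = 0`: if `r ≠ 0` then `m` is determined: at most `p (p - 1)`; if `r = 0` then `g = 0`: at most `p`. -/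
def SQ4_stmt : Prop :=
  (∀ (t : Tpl) (p : ℕ), IsT t → p.Prime → p ∣ t.1.1 →
    (p : ℤ) ∣ (t.1.2 : ℤ) ^ 8 * dis t - t.2.1 * ((t.1.2 : ℤ) ^ 2 * t.2.1 * (RR' t) ^ 2 + 4 * t.2.2.1 ^ 5)) ∧
  ∀ (p : ℕ), p.Prime → p ≠ 2 → ∀ k : ZMod p, k ≠ 0 →
    {x : ZMod p × ZMod p × ZMod p | x.1 * (k ^ 2 * x.1 * x.2.2 ^ 2 + 4 * x.2.1 ^ 5) = 0}.ncard ≤ 2 * p ^ 2

/-- **ST1** (medium; from SQ0, SQ2, SQ4, STA and EQUB1, EQUB2). `T1_stmt`. For a prime `p` with `w < p ≤ N^(δ/10000)` (so `p ≥ 3`, `p² ≤ N^(δ/5000)`): (a) tuples with `p ∤ n`: EQUB1 with `N' = N`, `e = p²`, `S (n, k)` = the set of `(m, g, r)`, `0 ≤ m, g, r < p²`, with `Pp n k m g r = 0` in `ZMod (p²)` if `p ∤ n`, and `∅` otherwise: `s = 4 p⁴` (SQ2); `t` is congruent to its class of residues and `Pp = n^10 dis = 0`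
(SQ0): at most `(4 C₁ / p² + N^(-δ/4)) Y Y₂`. (b) `p ∣ n`: EQUB2, `S (n, k)` = the `(m, g, r)`, `0 ≤ .. < p`, with the congruence of SQ4 if `p ∤ k`, else `∅`; `s = 2 p²`: at most `(2 C₂ / p² + N^(-δ/4)) Y Y₂`. Sum over `p`: STA: `(4 C₁ + 2 C₂) 2 / w`, and `2 N^(δ/10000) N^(-δ/4) ≤ ε` for large `N`. -/
def ST1_stmt (δ : ℝ) : Prop := 0 < δ → δ ≤ 1 / 10 → EQUB1_stmt δ → EQUB2_stmt δ → T1_stmt δ

/-- **SBT** (medium; from SQ0, SQ3 and EQUB1). `BT_stmt`. EQUB1 with `N' = N d²` (`≤ N^(1 + δ/5000)`), `e = d²` (`≤ N^(δ/5000)`), `S (n, k)` = the `(m, g, r)`, `0 ≤ .. < d²`, with the condition of SQ3 if `gcd (n, d) = 1`, else `∅`; `s = τ(d) d⁴`: `C s / e³ = C τ(d) / d²`. For `t` in the set: residues of `(m, g, R)` modulo `d²`; `d₂² ∣ dis t` (as `d² ∣ dis t`), `Zp Lp = n⁶ Z Λ` is prime to `d₂`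
(SQ0), `d₁ ∣ m, g`; `Zp, Lp, Pp` of the residues are congruent to those of `t` modulo `d²`. -/
def SBT_stmt (δ : ℝ) : Prop := 0 < δ → δ ≤ 1 / 10 → EQUB1_stmt δ → BT_stmt δ

/-! ## The main theorem -/

/-- **SR1** (medium). Ideals and primitive ideals. `K` quadratic (`QF.mul_bar`, `absNorm (r) = r²`: `Ideal.absNorm_span_natCast` or `QF.absNorm_eq`). The map `(r, j, b) ↦ (r) b` is a bijection from the triples with `1 ≤ r ≤ R₀`, `j < J`, `b ∈ IA K (Y / (r² 2^j))` onto `ALLI K Y`. `absNorm ((r) b) = r² absNorm b ≤ Y / 2^j ≤ Y`; `(r) b` is principal iff `b` is, the same for fifth powers (cancel the nonzero principal ideal `(r)`).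
Surjective: `r` maximal with `(r) ∣ a`, `a = (r) b`, `b` primitive; `r² ≤ r² absNorm b ≤ Y < (R₀+1)²`; `j` the number with `Y / (r² 2^(j+1)) < absNorm b ≤ Y / (r² 2^j)`; `absNorm b ≥ 1`, so `2^j ≤ Y < 2^J`. Injective: `(r) b = (r') b'` with `b, b'` primitive gives `r = r'` (if a prime power `q^e ∥ r`, `q^e' ∥ r'`, `e < e'`, then `q ∣ b`), so `b = b'`; `j` is determined by `absNorm b`. -/
def SR1_stmt : Prop := ∀ (K : Type) [Field K] [NumberField K] (_ : QF K), Module.finrank ℚ K = 2 → ∀ (Y : ℝ) (R₀ J : ℕ), 0 < Y →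
  Y < ((R₀ : ℝ) + 1) ^ 2 → Y < 2 ^ J →
  (ALLI K Y).ncard = ∑ r ∈ Icc 1 R₀, ∑ j ∈ range J, (IA K (Y / ((r : ℝ) ^ 2 * 2 ^ j))).ncard

open Classical in
/-- **SR2** (short to medium; from SR1, SFA). The sum over `D`. `IsFund D`, `-N ≤ D ≤ -1`: field `E` (SFA), `h D Y = (ALLI E.K Y).ncard` (`E.dK`), `= ∑_r ∑_j cA D (..)` (SR1; `cA` uses the chosen field, take `E` = the chosen one). `D` lies in exactly one `DN (N / 2^i)`: `N / 2^(i+1) < -D ≤ N / 2^i`, `i < I` as `-D ≥ 1`, `N < 2^I`. -/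
def SR2_stmt : Prop := ∀ h : ℤ → ℝ → ℕ, (∀ (K : Type) [Field K] [NumberField K], Module.finrank ℚ K = 2 → ∀ Y : ℝ,
    h (NumberField.discr K) Y = (ALLI K Y).ncard) →
  ∀ (N Y : ℝ) (I R₀ J : ℕ), 1 ≤ N → 0 < Y → N < 2 ^ I → Y < ((R₀ : ℝ) + 1) ^ 2 → Y < 2 ^ J →
  ∑ D ∈ (Icc (-⌊N⌋) (-1)).filter IsFund, (h D Y : ℝ) =
    ∑ i ∈ range I, ∑ r ∈ Icc 1 R₀, ∑ j ∈ range J, ∑ D ∈ DN (N / 2 ^ i), (cA D (Y / ((r : ℝ) ^ 2 * 2 ^ j)) : ℝ)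

/-- **SR3** (medium; real analysis). `A : ℝ → ℝ → ℝ` nonnegative. `u(i,r,j) = 2^(-i/2) / (r² 2^j)`, so `Y' √N' = u Y √N` for `N' = N / 2^i`, `Y' = Y / (r² 2^j)`. `U₀ = ∑_{all i ≥ 0, r ≥ 1, j ≥ 0} u = (1 - 1/√2)⁻¹ (π²/6) 2`, `c0 U₀ = 6 / π`. We may assume `δ ≤ 1/10` (otherwise use `1/10`: the range is smaller). `δ' = δ/2`, `η = δ/2`, `η' = 1/200`.
IN = the indices with `N' ≥ N^(1-η)` and `r² 2^j ≤ N^η'`. There `N'^0.39 ≤ N^0.39 ≤ Y'` and `Y' ≤ Y ≤ N^(1/2-δ) ≤ N'^(1/2-δ')` (`(1-η)(1/2-δ') ≥ 1/2 - δ`), so `|A N' Y' - c0 Y' √N'| ≤ ε₁ Y' √N'` for `N` large. `∑_IN u ≤ U₀`, and `∑_IN u ≥ U₀ - ε₁` for `N` large (IN contains any given finite set of indices; `I, R₀, J` are large).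
OUT: hypothesis (U) with `ε₂`: `A N' Y' ≤ C (N Y)^ε₂ u Y √N` (if `N' ≥ 1`, `Y' ≥ 1`; otherwise `A = 0`), `∑_OUT u ≤ C' (N^(-η/2) + N^(-η'/2))`: `∑_{2^i > N^η} 2^(-i/2) ≤ 4 N^(-η/2)`, and `∑_{r² 2^j > M} 1/(r² 2^j) ≤ C'/√M` (for fixed `j`: `∑_{r > √(M/2^j)} r⁻² ≤ 2 √(2^j/M)`, trivially `≤ 2`; sum with `2^(-j)`). `ε₂ < η'/8, η/8`. -/
def SR3_stmt : Prop := ∀ A : ℝ → ℝ → ℝ, (∀ N Y, 0 ≤ A N Y) → (∀ N Y, N < 1 → A N Y = 0) → (∀ N Y, Y < 1 → A N Y = 0) →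
  (∀ δ : ℝ, 0 < δ → δ ≤ 1 / 10 → ∀ ε : ℝ, 0 < ε → ∃ N₀ : ℝ, ∀ N Y : ℝ, N₀ ≤ N → N ^ (0.39 : ℝ) ≤ Y → Y ≤ N ^ (1 / 2 - δ) →
    |A N Y - c0 * (Y * √N)| ≤ ε * (Y * √N)) →
  (∀ ε : ℝ, 0 < ε → ∃ C : ℝ, 1 ≤ C ∧ ∀ N Y : ℝ, 1 ≤ N → 1 ≤ Y → A N Y ≤ C * (N * Y) ^ ε * (Y * √N)) →
  ∀ δ : ℝ, 0 < δ → ∀ ε : ℝ, 0 < ε → ∃ N₀ : ℝ, 1 ≤ N₀ ∧ ∀ N Y : ℝ, N₀ ≤ N → N ^ (2 / 5 : ℝ) ≤ Y → Y ≤ N ^ (1 / 2 - δ) →
    ∃ I₀ R₁ J₀ : ℕ, ∀ I R₀ J : ℕ, I₀ ≤ I → R₁ ≤ R₀ → J₀ ≤ J →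
    |∑ i ∈ range I, ∑ r ∈ Icc 1 R₀, ∑ j ∈ range J, A (N / 2 ^ i) (Y / ((r : ℝ) ^ 2 * 2 ^ j)) - 6 / Real.pi * (Y * √N)| ≤
      ε * (Y * √N)

/-- **SMA** (short to medium; from SR2, SR3). `A N Y = ∑_{D ∈ DN N} cA D Y`; `N < 1`: `⌊N⌋ ≤ 0`, `DN N` is empty; `Y < 1`: `IA K Y` is empty (`absNorm a ≥ 1` for `a ≠ ⊥`). -/
def SMA_stmt : Prop := (∀ δ : ℝ, 0 < δ → δ ≤ 1 / 10 → SLU_stmt δ) → (∀ δ : ℝ, 0 < δ → δ ≤ 1 / 10 → SLL_stmt δ) → U_stmt → MAIN_stmt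

end Pool.Agent.T5
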