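import Pool.Agent.helper82.T5.SpecS

set_option autoImplicit false

namespace Pool.Agent.T5

open Finset NumberField Pool.Agent.helper3.FT Pool.Agent.helper47.RA

theorem SLD_split (d N Y : ℝ) (hN : 0 < N) :
    Y * N ^ (1 / 2 + d) = N ^ d * (Y * √N) := by
  rw [Real.rpow_add hN, Real.sqrt_eq_rpow]; ring

theorem SLD_small (c ε : ℝ) (hc : 0 < c) (hε : 0 < ε) :
    ∃ N₀ : ℝ, ∀ N : ℝ, N₀ ≤ N → N ^ (-c) ≤ ε := by
  have h := (tendsto_rpow_neg_atTop hc).eventually (ge_mem_nhds hε)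
  obtain ⟨N₀, h⟩ := Filter.eventually_atTop.1 h
  exact ⟨N₀, h⟩

theorem SLD_big : ∃ N₀ : ℝ, ∀ N : ℝ, N₀ ≤ N → 3 ≤ N ^ (0.39 : ℝ) := by
  have h := (tendsto_rpow_atTop (by norm_num : (0 : ℝ) < 0.39)).eventually_ge_atTop 3
  obtain ⟨N₀, h⟩ := Filter.eventually_atTop.1 h
  exact ⟨N₀, h⟩

theorem SLD_mem {N : ℝ} {D : ℤ} (h : D ∈ DN N) :
    IsFund D ∧ N / 2 < -(D : ℝ) ∧ -(D : ℝ) ≤ N ∧ D < 0 := by
  classical
  unfold DN at h
  rw [Finset.mem_filter, Finset.mem_Icc] at h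
  obtain ⟨⟨h1, h2⟩, h3, h4⟩ := h
  refine ⟨h3, h4, ?_, by omega⟩
  have h5 : -D ≤ ⌊N⌋ := by omega
  have h6 : ((-D : ℤ) : ℝ) ≤ N := Int.le_floor.1 h5
  push_cast at h6
  exact h6

/-- the inequality for one discriminant -/
theorem SLD_D (w : ℕ) (N Y d L M B : ℝ)
    (h : ∀ (K : Type) [Field K] [NumberField K] (Q : QF K), Module.finrank ℚ K = 2 →
      N / 2 < -(Q.D : ℝ) → -(Q.D : ℝ) ≤ N →
      (∑ᶠ x ∈ G0 Q N Y d, wt Q w x.1 x.2) ≤ L * ((IA K Y).ncard : ℝ) + M * ((EX Q Y B).ncard : ℝ))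
    (D : ℤ) (hD : D ∈ DN N) :
    SF (fun _ E => ∑ᶠ x ∈ G0 E.Q N Y d, wt E.Q w x.1 x.2) D ≤
      L * (cA D Y : ℝ) + M * (cE D Y B : ℝ) := by
  obtain ⟨h1, h2, h3, h4⟩ := SLD_mem hD
  by_cases hne : Nonempty (Fld D)
  · have e1 : cA D Y = (IA hne.some.K Y).ncard := by unfold cA; rw [dif_pos hne]
    have e2 : cE D Y B = (EX hne.some.Q Y B).ncard := by unfold cE; rw [dif_pos hne]
    have e3 : SF (fun _ E => ∑ᶠ x ∈ G0 E.Q N Y d, wt E.Q w x.1 x.2) D =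
        ∑ᶠ x ∈ G0 hne.some.Q N Y d, wt hne.some.Q w x.1 x.2 := by
      unfold SF; rw [dif_pos hne]
    rw [e1, e2, e3]
    have hq : hne.some.Q.D = D := hne.some.hD
    exact h hne.some.K hne.some.Q hne.some.fin (by rw [hq]; exact h2) (by rw [hq]; exact h3)
  · have e1 : cA D Y = 0 := by unfold cA; rw [dif_neg hne]
    have e2 : cE D Y B = 0 := by unfold cE; rw [dif_neg hne]
    have e3 : SF (fun _ E => ∑ᶠ x ∈ G0 E.Q N Y d, wt E.Q w x.1 x.2) D = 0 := by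
      unfold SF; rw [dif_neg hne]
    rw [e1, e2, e3]
    simp

/-- splitting of the sum of the weights -/
theorem SLD_sum (w : ℕ) (F : Finset Tpl) (M : ℝ) (hM : ∀ t, 0 ≤ fw w t ∧ fw w t ≤ M)
    (F₁ F₂ : Finset Tpl) (h₁ : ∀ t, t ∈ F₁ ↔ t ∈ F ∧ IsFund (dis t))
    (h₂ : ∀ t, t ∈ F₂ ↔ t ∈ F ∧ fw w t ≠ 0 ∧ ¬ IsFund (dis t)) :
    ∑ t ∈ F, fw w t ≤ ∑ t ∈ F₁, fw w t + M * (F₂.card : ℝ) := by
  classical
  have hle : ∑ t ∈ F, fw w t ≤ ∑ t ∈ F₁ ∪ F₂, fw w t := by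
    have : ∑ t ∈ F.filter (fun t => fw w t ≠ 0), fw w t = ∑ t ∈ F, fw w t :=
      Finset.sum_filter_ne_zero _
    rw [← this]
    apply Finset.sum_le_sum_of_subset_of_nonneg
    · intro t ht
      rw [Finset.mem_filter] at ht
      rw [Finset.mem_union, h₁, h₂]
      by_cases hf : IsFund (dis t)
      · exact Or.inl ⟨ht.1, hf⟩
      · exact Or.inr ⟨ht.1, ht.2, hf⟩
    · intro t _ _
      exact (hM t).1
  have hdisj : Disjoint F₁ F₂ := by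
    rw [Finset.disjoint_left]
    intro t ht1 ht2
    exact ((h₂ t).1 ht2).2.2 ((h₁ t).1 ht1).2
  rw [Finset.sum_union hdisj] at hle
  have h3 : ∑ t ∈ F₂, fw w t ≤ M * (F₂.card : ℝ) := by
    calc ∑ t ∈ F₂, fw w t ≤ ∑ _t ∈ F₂, M := Finset.sum_le_sum (fun t _ => (hM t).2)
      _ = M * (F₂.card : ℝ) := by rw [Finset.sum_const, nsmul_eq_mul, mul_comm]
  linarith

theorem SLD_final (pi A E S T W Nd X M C₁ C₂ ε m s wi sw : ℝ) (hNd : 0 < Nd) (hX : 0 ≤ X)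
    (hM : 1 ≤ M) (hC₂ : 1 ≤ C₂) (hε : 0 < ε) (hws : wi ≤ sw)
    (hm : m = M * sw)
    (h1 : W ≤ S + M * T)
    (h2 : S ≤ (pi + ε) * Nd * A + M * C₁ * Nd * E)
    (h3 : T ≤ (C₂ * wi + ε / (4 * M)) * (Nd * X))
    (h4 : |W - Nd * X * s| ≤ ε / 4 * (Nd * X)) (h5 : M * C₁ * E ≤ ε / 4 * X) :
    (s - C₂ * m - ε) * X ≤ (pi + ε) * A := by
  have hW : Nd * X * s - ε / 4 * (Nd * X) ≤ W := by
    have := (abs_le.1 h4).1
    linarith
  have hM0 : 0 < M := by linarith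
  have hMT : M * T ≤ (C₂ * m + ε / 4) * (Nd * X) := by
    have hwi : C₂ * wi ≤ C₂ * sw := mul_le_mul_of_nonneg_left hws (by linarith)
    calc M * T ≤ M * ((C₂ * wi + ε / (4 * M)) * (Nd * X)) := mul_le_mul_of_nonneg_left h3 hM0.le
      _ ≤ M * ((C₂ * sw + ε / (4 * M)) * (Nd * X)) := by
          apply mul_le_mul_of_nonneg_left _ hM0.le
          apply mul_le_mul_of_nonneg_right _ (by positivity)
          linarith
      _ = (C₂ * m + ε / 4) * (Nd * X) := by rw [hm]; field_simp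
  have h6 : Nd * ((s - ε / 4 - (C₂ * m + ε / 4)) * X) ≤ Nd * ((pi + ε) * A + M * C₁ * E) := by
    calc Nd * ((s - ε / 4 - (C₂ * m + ε / 4)) * X)
        = (Nd * X * s - ε / 4 * (Nd * X)) - (C₂ * m + ε / 4) * (Nd * X) := by ring
      _ ≤ W - M * T := by linarith
      _ ≤ S := by linarith
      _ ≤ (pi + ε) * Nd * A + M * C₁ * Nd * E := h2
      _ = _ := by ring
  have h7 : (s - ε / 4 - (C₂ * m + ε / 4)) * X ≤ (pi + ε) * A + M * C₁ * E :=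
    le_of_mul_le_mul_left h6 hNd
  have h13 : 0 ≤ ε * X := mul_nonneg hε.le hX
  nlinarith

theorem SLD (hSLA : ∀ d : ℝ, SLA_stmt d) (hSLB : SLB_stmt) (hSLC : ∀ δ : ℝ, SLC_stmt δ)
    (hSFA : SFA_stmt) (hSFC : SFC_stmt) (hSMW : SMW_stmt) : ∀ δ : ℝ, SLD_stmt δ := by
  classical
  intro δ hδ hδ1 hALG hL1 hLE hEXC hT1 hTW hT3 hT4 μ hTAS κ hκ hκ1
  have hd : 0 < δ / 100 := by positivity
  obtain ⟨C₁, hC₁, hA⟩ := hSLA (δ / 100) hd hL1 hLE
  obtain ⟨C₂, hC₂, hB⟩ := hSLC δ hδ hδ1 hT1 hTW hT3 hT4 κ hκ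
  refine ⟨C₂, hC₂, fun w hw ε hε => ?_⟩
  have hM : 1 ≤ MW w := hSMW.1 w
  have hM0 : 0 < MW w := by linarith
  have hC₁0 : 0 < C₁ := by linarith
  obtain ⟨N₁, h1⟩ := hA w ε hε
  obtain ⟨N₂, h2⟩ := hB w hw (ε / (4 * MW w)) (by positivity)
  obtain ⟨N₃, h3⟩ := hTAS κ hκ hκ1 w hw (ε / 4) (by positivity)
  obtain ⟨c, N₄, hc, h4⟩ := hEXC
  obtain ⟨N₅, h5⟩ := SLD_small c (ε / 4 / (MW w * C₁)) hc (by positivity)
  obtain ⟨N₆, h6⟩ := SLD_big
  refine ⟨max (max (max N₁ N₂) (max N₃ N₄)) (max (max N₅ N₆) 100), fun N Y hN hY1 hY2 => ?_⟩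
  have hN1 : N₁ ≤ N := le_trans (le_trans (le_trans (le_max_left _ _) (le_max_left _ _)) (le_max_left _ _)) hN
  have hN2 : N₂ ≤ N := le_trans (le_trans (le_trans (le_max_right _ _) (le_max_left _ _)) (le_max_left _ _)) hN
  have hN3 : N₃ ≤ N := le_trans (le_trans (le_trans (le_max_left _ _) (le_max_right _ _)) (le_max_left _ _)) hN
  have hN4 : N₄ ≤ N := le_trans (le_trans (le_trans (le_max_right _ _) (le_max_right _ _)) (le_max_left _ _)) hN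
  have hN5 : N₅ ≤ N := le_trans (le_trans (le_trans (le_max_left _ _) (le_max_left _ _)) (le_max_right _ _)) hN
  have hN6 : N₆ ≤ N := le_trans (le_trans (le_trans (le_max_right _ _) (le_max_left _ _)) (le_max_right _ _)) hN
  have hN100 : 100 ≤ N := le_trans (le_trans (le_max_right _ _) (le_max_right _ _)) hN
  have hN0 : 0 < N := by linarith
  have hY0 : 0 < Y := lt_of_lt_of_le (Real.rpow_pos_of_pos hN0 _) hY1
  have hY3 : 2 < Y := by have := h6 N hN6; linarith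
  have hYN : 8 * Y < N := by
    have hs : Y ≤ √N := by
      rw [Real.sqrt_eq_rpow]
      exact hY2.trans (Real.rpow_le_rpow_of_exponent_le (by linarith) (by linarith))
    have hs10 : 10 ≤ √N := by
      apply Real.le_sqrt_of_sq_le
      linarith
    have hss : √N * √N = N := Real.mul_self_sqrt hN0.le
    nlinarith
  have hY20 : 0 < N ^ (1 / 2 + δ / 100) := Real.rpow_pos_of_pos hN0 _
  have hfin := hSFC κ N Y (N ^ (1 / 2 + δ / 100)) hκ hN0 hY0 hY20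
  have hFm : ∀ t, t ∈ hfin.toFinset ↔ Cen κ N Y (N ^ (1 / 2 + δ / 100)) t := fun t => by
    rw [Set.Finite.mem_toFinset]; rfl
  have k3 := h3 N Y hN3 hY1 hY2 hfin.toFinset hFm
  have k4 := h4 N Y hN4 hY1 hY2
  have k5 := h5 N hN5
  have k2 := h2 N Y hN2 hY1 hY2 (hfin.toFinset.filter (fun t => fw w t ≠ 0 ∧ ¬ IsFund (dis t)))
    (fun t ht => by
      rw [Finset.mem_filter] at ht
      exact ⟨(hFm t).1 ht.1, ht.2⟩)
  have kB := hSLB hALG (δ / 100) κ N Y hd hκ (by linarith) hY3 hYN w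
    (hfin.toFinset.filter (fun t => IsFund (dis t)))
    (fun t ht => by
      rw [Finset.mem_filter] at ht
      exact ⟨(hFm t).1 ht.1, ht.2⟩)
  have hhalf : (1 / 2 - δ / 100 / 2 : ℝ) = 1 / 2 - δ / 200 := by ring
  have kD := fun D hD => SLD_D w N Y (δ / 100)
    ((Real.pi + ε) * N ^ (δ / 100)) (MW w * C₁ * N ^ (δ / 100)) (N ^ (1 / 2 - δ / 200))
    (by
      intro K _ _ Q hfr g1 g2
      have := h1 K Q N Y hfr hN1 g1 g2
      rw [hhalf] at this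
      exact this) D hD
  have kS := Finset.sum_le_sum kD
  rw [Finset.sum_add_distrib, ← Finset.mul_sum, ← Finset.mul_sum] at kS
  have ksum := SLD_sum w hfin.toFinset (MW w) (fun t => hSMW.2.2.1 w t)
    (hfin.toFinset.filter (fun t => IsFund (dis t)))
    (hfin.toFinset.filter (fun t => fw w t ≠ 0 ∧ ¬ IsFund (dis t)))
    (fun t => by rw [Finset.mem_filter]) (fun t => by rw [Finset.mem_filter])
  have hsplit := SLD_split (δ / 100) N Y hN0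
  rw [hsplit] at k3 k2
  have hX0 : 0 ≤ Y * √N := by positivity
  have hw0 : (0 : ℝ) < w := by
    have : 0 < w := by omega
    exact_mod_cast this
  refine SLD_final Real.pi _ (∑ D ∈ DN N, (cE D Y (N ^ (1 / 2 - δ / 200)) : ℝ))
    (∑ t ∈ hfin.toFinset.filter (fun t => IsFund (dis t)), fw w t)
    ((hfin.toFinset.filter (fun t => fw w t ≠ 0 ∧ ¬ IsFund (dis t))).card : ℝ)
    (∑ t ∈ hfin.toFinset, fw w t)
    (N ^ (δ / 100)) (Y * √N) (MW w) C₁ C₂ ε (MW w / √(w : ℝ)) _ (1 / (w : ℝ)) (1 / √(w : ℝ))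
    (Real.rpow_pos_of_pos hN0 _) hX0 hM hC₂ hε ?_ ?_ ksum (kB.trans kS) ?_ k3 ?_
  · -- 1 / w ≤ 1 / √w
    apply one_div_le_one_div_of_le (Real.sqrt_pos.2 hw0)
    rw [Real.sqrt_le_left hw0.le]
    have h1w : (1 : ℝ) ≤ w := by
      have : 1 ≤ w := by omega
      exact_mod_cast this
    nlinarith
  · ring
  · calc _ ≤ _ := k2
      _ = _ := by rw [show C₂ * (1 / (w : ℝ)) = C₂ / w by ring]
  · calc MW w * C₁ * ∑ D ∈ DN N, (cE D Y (N ^ (1 / 2 - δ / 200)) : ℝ)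
        ≤ MW w * C₁ * (N ^ (-c) * (Y * √N)) := mul_le_mul_of_nonneg_left k4 (by positivity)
      _ ≤ MW w * C₁ * (ε / 4 / (MW w * C₁) * (Y * √N)) := by
          apply mul_le_mul_of_nonneg_left _ (by positivity)
          exact mul_le_mul_of_nonneg_right k5 hX0
      _ = ε / 4 * (Y * √N) := by
          field_simp

end Pool.Agent.T5
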