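import Pool.Agent.helper82.T5.SpecS

set_option autoImplicit false

namespace Pool.Agent.T5

open Finset NumberField Pool.Agent.helper3.FT Pool.Agent.helper47.RA

theorem SUA_sum {A B : Type} (S : Finset A) (F : A → Finset B) (G : Set (A × B))
    (hG : G.Finite) (f : A × B → ℝ) (hf : ∀ x, 0 ≤ f x) (h : ∀ a ∈ S, ∀ b ∈ F a, (a, b) ∈ G) :
    ∑ a ∈ S, ∑ b ∈ F a, f (a, b) ≤ ∑ᶠ x ∈ G, f x := by
  classical
  rw [finsum_mem_eq_finite_toFinset_sum f hG, Finset.sum_sigma']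
  have himg : ∑ x ∈ S.sigma F, f (x.1, x.2) =
      ∑ y ∈ (S.sigma F).image (fun x => ((x.1, x.2) : A × B)), f y := by
    rw [Finset.sum_image]
    intro x _ y _ hxy
    have h1 : x.1 = y.1 := congrArg Prod.fst hxy
    have h2 : x.2 = y.2 := congrArg Prod.snd hxy
    exact Sigma.ext h1 (heq_of_eq h2)
  rw [himg]
  apply Finset.sum_le_sum_of_subset_of_nonneg
  · intro y hy
    rw [Finset.mem_image] at hy
    obtain ⟨x, hx, rfl⟩ := hy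
    rw [Finset.mem_sigma] at hx
    rw [Set.Finite.mem_toFinset]
    exact h x.1 hx.1 x.2 hx.2
  · intro y _ _
    exact hf y

theorem SUA_card {A B : Type} (S : Finset A) (F : A → Finset B) (G : Set (A × B))
    (hG : G.Finite) (h : ∀ a ∈ S, ∀ b ∈ F a, (a, b) ∈ G) :
    ∑ a ∈ S, ((F a).card : ℝ) ≤ (G.ncard : ℝ) := by
  have h1 := SUA_sum S F G hG (fun _ => 1) (fun _ => zero_le_one) h
  rw [finsum_mem_eq_finite_toFinset_sum _ hG] at h1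
  simp only [Finset.sum_const, nsmul_eq_mul, mul_one] at h1
  rw [Set.ncard_eq_toFinset_card G hG]
  exact h1

section
variable {K : Type} [Field K] [NumberField K]

/-- the classification of the `α` -/
theorem SUA_class (hAGEX : AGEX_stmt) (hAALW : AALW_stmt) (hAFUL : AFUL_stmt) (Q : QF K) (κ N Y d : ℝ) (w : ℕ)
    (hκ : 0 < κ) (hw : 2 ≤ w) (hN : 0 < N) (hD : Q.D < 0) (a : Ideal (𝓞 K)) (α : 𝓞 K) (ha : a ∈ IA K Y)
    (hα : α ∈ AL Q a (N ^ d * √(-(Q.D : ℝ)))) (hwt : wt Q w a α ≠ 0)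
    (h2 : ¬ ∃ γ, IsGam a α γ ∧ ¬ GoodR Q κ (N ^ (1 / 2 + d)) a α γ)
    (hB : ¬ ((∀ p ∈ pr w, alw Q p a α) ∧ ∃ γ, IsGam a α γ ∧ Q.Y γ ≠ 0 ∧
        ((∃ p : ℕ, p.Prime ∧ w < p ∧ Ideal.span {(p : 𝓞 K)} * a ^ 2 ∣ Ideal.span {α}) ∨
         (∃ p : ℕ, p.Prime ∧ w < p ∧ (p : ℤ) ^ 2 ∣ Q.Y α ∧ (p : ℤ) ∣ Q.Y γ) ∨
         N ^ (d / 100) < (gd Q α γ : ℝ)))) :
    (a, α) ∈ GG Q κ N Y d 1 ∨ ∃ g ∈ gR w N d, (a, α) ∈ GB Q κ N Y d g := by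
  classical
  obtain ⟨hne, hPrim, hpr, hnp, hZ1, hZ2⟩ := ha
  obtain ⟨hmem, hY0, hsz⟩ := hα
  have hα0 : α ≠ 0 := by
    intro h
    have hz : Q.Y (0 : 𝓞 K) = 0 := by
      have h0 := QF.Y_sub Q (0 : 𝓞 K) 0
      rw [sub_self, sub_self] at h0
      exact h0
    rw [h, hz] at hY0
    exact lt_irrefl _ hY0
  have halw : ∀ p ∈ pr w, alw Q p a α := by
    intro p hp
    have h := (Finset.prod_ne_zero_iff.1 hwt) p hp
    by_contra hcon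
    rw [if_neg hcon] at h
    exact h rfl
  obtain ⟨γ, hγ⟩ := (hAGEX K Q a α hne).1 hpr hmem
  have hgood : GoodR Q κ (N ^ (1 / 2 + d)) a α γ := by
    by_contra hcon
    exact h2 ⟨γ, hγ, hcon⟩
  have hNa : 0 < Ideal.absNorm a := by
    rw [Nat.pos_iff_ne_zero]
    intro h
    exact hne (Ideal.absNorm_eq_zero_iff.1 h)
  have hγ0 : Q.Y γ ≠ 0 := by
    intro h
    obtain ⟨g1, g2, g3⟩ := hgood
    rw [h] at g3
    have hl : 0 < (lamI a α : ℝ) := lt_of_lt_of_le (by positivity) g1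
    have hNa' : 0 < (Ideal.absNorm a : ℝ) := by exact_mod_cast hNa
    have : 0 < 2 * κ * √(Ideal.absNorm a : ℝ) * (lamI a α : ℝ) := by positivity
    simp at g3
    linarith
  have hB' : ¬ ((∃ p : ℕ, p.Prime ∧ w < p ∧ Ideal.span {(p : 𝓞 K)} * a ^ 2 ∣ Ideal.span {α}) ∨
         (∃ p : ℕ, p.Prime ∧ w < p ∧ (p : ℤ) ^ 2 ∣ Q.Y α ∧ (p : ℤ) ∣ Q.Y γ) ∨
         N ^ (d / 100) < (gd Q α γ : ℝ)) := fun h => hB ⟨halw, γ, hγ, hγ0, h⟩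
  push Not at hB'
  obtain ⟨b1, b2, b3⟩ := hB'
  have hprw : ∀ p : ℕ, p.Prime → p ≤ w → p ∈ pr w := by
    intro p hp hpw
    unfold pr
    rw [Finset.mem_filter, Finset.mem_range]
    exact ⟨by omega, hp⟩
  have hpL : ∀ q : ℕ, q.Prime → ¬ Ideal.span {(q : 𝓞 K)} * a ^ 2 ∣ Ideal.span {α} := by
    intro q hq
    by_cases hqw : q ≤ w
    · exact hAALW.2 K Q a α q hq hne hα0 (halw q (hprw q hq hqw))
    · exact b1 q hq (by omega)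
  have hAdm : Adm Q a α γ := ⟨hne, hPrim, hmem, hY0, hγ, hγ0, hpL⟩
  have hIA : a ∈ IA K Y := ⟨hne, hPrim, hpr, hnp, hZ1, hZ2⟩
  have hAL : α ∈ AL Q a (N ^ d * √(-(Q.D : ℝ))) := ⟨hmem, hY0, hsz⟩
  by_cases hg1 : gd Q α γ = 1
  · left
    exact ⟨hIA, hAL, γ, hAdm, hgood, hg1⟩
  · right
    obtain ⟨F, hFa, hFβ, hFγ, _, _, _⟩ := hAFUL K Q hD a α γ hne hPrim hmem hα0 hpL hγ
    have hgdα : (gd Q α γ : ℤ) ∣ Q.Y α := Int.gcd_dvd_left _ _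
    have hgdγ : (gd Q α γ : ℤ) ∣ Q.Y γ := Int.gcd_dvd_right _ _
    have hgpos : 0 < gd Q α γ := Int.gcd_pos_of_ne_zero_left _ hY0.ne'
    have hnop : ∀ p : ℕ, p.Prime → p ∣ gd Q α γ → w < p := by
      intro p hp hpg
      by_contra hcon
      have hpw : p ∈ pr w := hprw p hp (by omega)
      have hal : alw Q p F.a F.β := by rw [hFa, hFβ]; exact halw p hpw
      apply hAALW.1 K Q F p hp hal
      rw [hFβ, hFγ]
      have hpg' : (p : ℤ) ∣ (gd Q α γ : ℤ) := by exact_mod_cast hpg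
      exact ⟨hpg'.trans hgdα, hpg'.trans hgdγ⟩
    refine ⟨gd Q α γ, ?_, ⟨hIA, hAL, γ, hAdm, hgood, rfl⟩, ?_⟩
    · unfold gR
      rw [Finset.mem_filter, Finset.mem_range]
      refine ⟨?_, ?_, ?_⟩
      · have : gd Q α γ ≤ ⌊N ^ (d / 100)⌋₊ := Nat.le_floor b3
        omega
      · rw [← Nat.not_even_iff_odd, even_iff_two_dvd]
        intro h
        have := hnop 2 Nat.prime_two h
        omega
      · have h1 := hnop _ (Nat.minFac_prime hg1) (Nat.minFac_dvd _)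
        exact lt_of_lt_of_le h1 (Nat.minFac_le hgpos)
    · intro p hp hpg hp2
      have hpg' : (p : ℤ) ∣ (gd Q α γ : ℤ) := by exact_mod_cast hpg
      exact b2 p hp (hnop p hp hpg) hp2 (hpg'.trans hgdγ)

open Classical in
/-- one ideal -/
theorem SUA_one (hSFA : SFA_stmt) (hSMW : SMW_stmt) (hAGEX : AGEX_stmt) (hAALW : AALW_stmt) (hAFUL : AFUL_stmt)
    (Q : QF K) (κ N Y d C₂ CB ε₁ : ℝ) (w : ℕ)
    (hκ : 0 < κ) (hw : 2 ≤ w) (hN : 0 < N) (hD : Q.D < 0) (a : Ideal (𝓞 K)) (ha : a ∈ IA K Y)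
    (P : Finset (𝓞 K)) (hP : ∀ α, α ∈ P ↔ α ∈ AL Q a (N ^ d * √(-(Q.D : ℝ))))
    (h1 : |∑ α ∈ P, wt Q w a α - Real.pi * N ^ d| ≤ ε₁ * N ^ d)
    (h2 : ∀ F : Finset (𝓞 K), (∀ α ∈ F, α ∈ AL Q a (N ^ d * √(-(Q.D : ℝ))) ∧
      ∃ γ, IsGam a α γ ∧ ¬ GoodR Q κ (N ^ (1 / 2 + d)) a α γ) →
      ∑ α ∈ F, wt Q w a α ≤ (C₂ * κ + ε₁) * N ^ d)
    (hB : ∀ F : Finset (𝓞 K), (∀ α ∈ F, α ∈ AL Q a (N ^ d * √(-(Q.D : ℝ))) ∧
      (∀ p ∈ pr w, alw Q p a α) ∧ ∃ γ, IsGam a α γ ∧ Q.Y γ ≠ 0 ∧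
        ((∃ p : ℕ, p.Prime ∧ w < p ∧ Ideal.span {(p : 𝓞 K)} * a ^ 2 ∣ Ideal.span {α}) ∨
         (∃ p : ℕ, p.Prime ∧ w < p ∧ (p : ℤ) ^ 2 ∣ Q.Y α ∧ (p : ℤ) ∣ Q.Y γ) ∨
         N ^ (d / 100) < (gd Q α γ : ℝ))) →
      (F.card : ℝ) ≤ (CB / w + ε₁) * N ^ d) :
    (Real.pi - ε₁ - (C₂ * κ + ε₁) - MW w * (CB / w + ε₁)) * N ^ d ≤
      (∑ α ∈ P.filter (fun α => (a, α) ∈ GG Q κ N Y d 1), wt Q w a α) +
        MW w * ∑ g ∈ gR w N d, ((P.filter (fun α => (a, α) ∈ GB Q κ N Y d g)).card : ℝ) := by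
  have hMW : 0 ≤ MW w := by have := hSMW.1 w; linarith
  have k2 := h2 (P.filter (fun α => ∃ γ, IsGam a α γ ∧ ¬ GoodR Q κ (N ^ (1 / 2 + d)) a α γ)) (by
    intro α hα
    rw [Finset.mem_filter] at hα
    exact ⟨(hP α).1 hα.1, hα.2⟩)
  have kB := hB (P.filter (fun α => (∀ p ∈ pr w, alw Q p a α) ∧ ∃ γ, IsGam a α γ ∧ Q.Y γ ≠ 0 ∧
        ((∃ p : ℕ, p.Prime ∧ w < p ∧ Ideal.span {(p : 𝓞 K)} * a ^ 2 ∣ Ideal.span {α}) ∨
         (∃ p : ℕ, p.Prime ∧ w < p ∧ (p : ℤ) ^ 2 ∣ Q.Y α ∧ (p : ℤ) ∣ Q.Y γ) ∨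
         N ^ (d / 100) < (gd Q α γ : ℝ)))) (by
    intro α hα
    rw [Finset.mem_filter] at hα
    exact ⟨(hP α).1 hα.1, hα.2⟩)
  have key : ∑ α ∈ P, wt Q w a α ≤
      (∑ α ∈ P.filter (fun α => ∃ γ, IsGam a α γ ∧ ¬ GoodR Q κ (N ^ (1 / 2 + d)) a α γ), wt Q w a α) +
      MW w * ((P.filter (fun α => (∀ p ∈ pr w, alw Q p a α) ∧ ∃ γ, IsGam a α γ ∧ Q.Y γ ≠ 0 ∧
        ((∃ p : ℕ, p.Prime ∧ w < p ∧ Ideal.span {(p : 𝓞 K)} * a ^ 2 ∣ Ideal.span {α}) ∨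
         (∃ p : ℕ, p.Prime ∧ w < p ∧ (p : ℤ) ^ 2 ∣ Q.Y α ∧ (p : ℤ) ∣ Q.Y γ) ∨
         N ^ (d / 100) < (gd Q α γ : ℝ)))).card : ℝ) +
      ((∑ α ∈ P.filter (fun α => (a, α) ∈ GG Q κ N Y d 1), wt Q w a α) +
        MW w * ∑ g ∈ gR w N d, ((P.filter (fun α => (a, α) ∈ GB Q κ N Y d g)).card : ℝ)) := by
    simp only [Finset.card_filter, Nat.cast_sum, Finset.sum_filter, Finset.mul_sum]
    rw [Finset.sum_comm (s := gR w N d) (t := P)]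
    rw [← Finset.sum_add_distrib, ← Finset.sum_add_distrib, ← Finset.sum_add_distrib]
    apply Finset.sum_le_sum
    intro α hα
    obtain ⟨w0, wM⟩ := hSMW.2.2.2 K Q w a α
    have t1 : 0 ≤ (if ∃ γ, IsGam a α γ ∧ ¬ GoodR Q κ (N ^ (1 / 2 + d)) a α γ then wt Q w a α else 0) := by
      split_ifs
      · exact w0
      · exact le_rfl
    have t2 : 0 ≤ MW w * (((if (∀ p ∈ pr w, alw Q p a α) ∧ ∃ γ, IsGam a α γ ∧ Q.Y γ ≠ 0 ∧
        ((∃ p : ℕ, p.Prime ∧ w < p ∧ Ideal.span {(p : 𝓞 K)} * a ^ 2 ∣ Ideal.span {α}) ∨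
         (∃ p : ℕ, p.Prime ∧ w < p ∧ (p : ℤ) ^ 2 ∣ Q.Y α ∧ (p : ℤ) ∣ Q.Y γ) ∨
         N ^ (d / 100) < (gd Q α γ : ℝ)) then 1 else 0 : ℕ)) : ℝ) :=
      mul_nonneg hMW (Nat.cast_nonneg _)
    have t3 : 0 ≤ (if (a, α) ∈ GG Q κ N Y d 1 then wt Q w a α else 0) := by
      split_ifs
      · exact w0
      · exact le_rfl
    have t4 : 0 ≤ ∑ g ∈ gR w N d, MW w * (((if (a, α) ∈ GB Q κ N Y d g then 1 else 0 : ℕ)) : ℝ) :=
      Finset.sum_nonneg (fun _ _ => mul_nonneg hMW (Nat.cast_nonneg _))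
    by_cases hwt : wt Q w a α = 0
    · rw [hwt] at t1 t3 ⊢
      linarith
    · by_cases c1 : ∃ γ, IsGam a α γ ∧ ¬ GoodR Q κ (N ^ (1 / 2 + d)) a α γ
      · rw [if_pos c1]
        linarith
      · by_cases c2 : (∀ p ∈ pr w, alw Q p a α) ∧ ∃ γ, IsGam a α γ ∧ Q.Y γ ≠ 0 ∧
          ((∃ p : ℕ, p.Prime ∧ w < p ∧ Ideal.span {(p : 𝓞 K)} * a ^ 2 ∣ Ideal.span {α}) ∨
           (∃ p : ℕ, p.Prime ∧ w < p ∧ (p : ℤ) ^ 2 ∣ Q.Y α ∧ (p : ℤ) ∣ Q.Y γ) ∨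
           N ^ (d / 100) < (gd Q α γ : ℝ))
        · rw [if_pos c2, Nat.cast_one, mul_one]
          linarith
        · rcases SUA_class hAGEX hAALW hAFUL Q κ N Y d w hκ hw hN hD a α ha ((hP α).1 hα) hwt c1 c2 with h | ⟨g, hg, h⟩
          · rw [if_pos h]
            linarith
          · have t5 : MW w ≤ ∑ g ∈ gR w N d, MW w * (((if (a, α) ∈ GB Q κ N Y d g then 1 else 0 : ℕ)) : ℝ) := by
              calc MW w = MW w * (((if (a, α) ∈ GB Q κ N Y d g then 1 else 0 : ℕ)) : ℝ) := by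
                    rw [if_pos h]; simp
                _ ≤ _ := Finset.single_le_sum
                    (f := fun g => MW w * (((if (a, α) ∈ GB Q κ N Y d g then 1 else 0 : ℕ)) : ℝ))
                    (fun _ _ => mul_nonneg hMW (Nat.cast_nonneg _)) hg
            linarith
  have k1 := (abs_le.1 h1).1
  have k3 : MW w * ((P.filter (fun α => (∀ p ∈ pr w, alw Q p a α) ∧ ∃ γ, IsGam a α γ ∧ Q.Y γ ≠ 0 ∧
        ((∃ p : ℕ, p.Prime ∧ w < p ∧ Ideal.span {(p : 𝓞 K)} * a ^ 2 ∣ Ideal.span {α}) ∨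
         (∃ p : ℕ, p.Prime ∧ w < p ∧ (p : ℤ) ^ 2 ∣ Q.Y α ∧ (p : ℤ) ∣ Q.Y γ) ∨
         N ^ (d / 100) < (gd Q α γ : ℝ)))).card : ℝ) ≤ MW w * ((CB / w + ε₁) * N ^ d) :=
    mul_le_mul_of_nonneg_left kB hMW
  nlinarith

end

theorem SUA (hSFA : SFA_stmt) (hSMW : SMW_stmt) (hAGEX : AGEX_stmt) (hAALW : AALW_stmt) (hAFUL : AFUL_stmt) :
    ∀ d : ℝ, SUA_stmt d := by
  classical
  intro d hd hL1 hL2 hLB
  obtain ⟨C₂, hC₂, hL2⟩ := hL2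
  obtain ⟨CB, hCB, hLB⟩ := hLB
  refine ⟨C₂ + CB, by linarith, ?_⟩
  intro κ hκ hκ1 w hw ε hε
  have hM : 1 ≤ MW w := hSMW.1 w
  have hM0 : 0 < MW w := by linarith
  obtain ⟨ε₁, hε₁e⟩ : ∃ ε₁ : ℝ, ε₁ = ε / (3 + 3 * MW w) := ⟨_, rfl⟩
  have hε₁ : 0 < ε₁ := by rw [hε₁e]; positivity
  obtain ⟨N₁, h1⟩ := hL1 w ε₁ hε₁
  obtain ⟨N₂, h2⟩ := hL2 κ hκ hκ1 w ε₁ hε₁
  obtain ⟨N₃, h3⟩ := hLB w hw ε₁ hε₁
  refine ⟨max (max N₁ N₂) (max N₃ 10), ?_⟩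
  intro K _ _ Q N Y hfr hN hD1 hD2 hYN
  have hN1 : N₁ ≤ N := le_trans (le_trans (le_max_left _ _) (le_max_left _ _)) hN
  have hN2 : N₂ ≤ N := le_trans (le_trans (le_max_right _ _) (le_max_left _ _)) hN
  have hN3 : N₃ ≤ N := le_trans (le_trans (le_max_left _ _) (le_max_right _ _)) hN
  have hN10 : 10 ≤ N := le_trans (le_trans (le_max_right _ _) (le_max_right _ _)) hN
  have hN0 : 0 < N := by linarith
  have hD : Q.D < 0 := by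
    have : (0 : ℝ) < -(Q.D : ℝ) := by linarith
    have h' : (Q.D : ℝ) < 0 := by linarith
    exact_mod_cast h'
  have hIA : (IA K Y).Finite := hSFA.1 K Y
  have hEXs : EX Q Y (N ^ (1 / 2 - d / 2)) ⊆ IA K Y := fun a ha => ha.1
  have hALf : ∀ a : Ideal (𝓞 K), (AL Q a (N ^ d * √(-(Q.D : ℝ)))).Finite := fun a => hSFA.2.1 K Q hD a _
  have hTfin : {x : Ideal (𝓞 K) × 𝓞 K | x.1 ∈ IA K Y ∧ x.2 ∈ AL Q x.1 (N ^ d * √(-(Q.D : ℝ)))}.Finite := by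
    have : {x : Ideal (𝓞 K) × 𝓞 K | x.1 ∈ IA K Y ∧ x.2 ∈ AL Q x.1 (N ^ d * √(-(Q.D : ℝ)))} ⊆
        ⋃ a ∈ IA K Y, (fun α => (a, α)) '' AL Q a (N ^ d * √(-(Q.D : ℝ))) := by
      intro x hx
      rw [Set.mem_iUnion₂]
      exact ⟨x.1, hx.1, x.2, hx.2, rfl⟩
    exact (hIA.biUnion (fun a _ => (hALf a).image _)).subset this
  have hGGf : ∀ g, (GG Q κ N Y d g).Finite := fun g => hTfin.subset (fun x hx => ⟨hx.1, hx.2.1⟩)
  have hGBf : ∀ g, (GB Q κ N Y d g).Finite := fun g => (hGGf g).subset (fun x hx => hx.1)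
  have hSf : (IA K Y \ EX Q Y (N ^ (1 / 2 - d / 2))).Finite := hIA.sdiff
  have hcard : ((IA K Y).ncard : ℝ) - ((EX Q Y (N ^ (1 / 2 - d / 2))).ncard : ℝ) = (hSf.toFinset.card : ℝ) := by
    have h := Set.ncard_sdiff_add_ncard_of_subset hEXs hIA
    rw [Set.ncard_eq_toFinset_card _ hSf] at h
    rw [← h]; push_cast; ring
  have hone : ∀ a ∈ hSf.toFinset,
      (Real.pi - ((C₂ + CB) * κ + MW w * ((C₂ + CB) / w) + ε)) * N ^ d ≤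
      (∑ α ∈ (hALf a).toFinset.filter (fun α => (a, α) ∈ GG Q κ N Y d 1), wt Q w a α) +
        MW w * ∑ g ∈ gR w N d, (((hALf a).toFinset.filter (fun α => (a, α) ∈ GB Q κ N Y d g)).card : ℝ) := by
    intro a ha
    rw [Set.Finite.mem_toFinset] at ha
    obtain ⟨ha1, ha2⟩ := ha
    have hP : ∀ α, α ∈ (hALf a).toFinset ↔ α ∈ AL Q a (N ^ d * √(-(Q.D : ℝ))) := fun α =>
      Set.Finite.mem_toFinset _
    have h := SUA_one hSFA hSMW hAGEX hAALW hAFUL Q κ N Y d C₂ CB ε₁ w hκ hw hN0 hD a ha1 (hALf a).toFinset hP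
      (h1 K Q N Y a hfr hN1 hD1 hD2 ha1 ha2 _ hP)
      (h2 K Q N Y a hfr hN2 hD1 hD2 ha1 ha2)
      (h3 K Q N Y a hfr hN3 hD1 hD2 hYN ha1 ha2)
    refine le_trans ?_ h
    apply mul_le_mul_of_nonneg_right _ (Real.rpow_nonneg hN0.le _)
    have e1 : ε₁ * (3 + 3 * MW w) = ε := by rw [hε₁e]; field_simp
    have hw0 : (0 : ℝ) < w := by
      have : 0 < w := by omega
      exact_mod_cast this
    have e2 : MW w * (CB / w) ≤ MW w * ((C₂ + CB) / w) := by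
      apply mul_le_mul_of_nonneg_left _ hM0.le
      apply div_le_div_of_nonneg_right _ hw0.le
      linarith
    have e3 : 0 ≤ CB * κ := by positivity
    nlinarith
  rw [hcard]
  calc (Real.pi - ((C₂ + CB) * κ + MW w * ((C₂ + CB) / w) + ε)) * N ^ d * (hSf.toFinset.card : ℝ)
      = ∑ _a ∈ hSf.toFinset, (Real.pi - ((C₂ + CB) * κ + MW w * ((C₂ + CB) / w) + ε)) * N ^ d := by
        rw [Finset.sum_const, nsmul_eq_mul]; ring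
    _ ≤ ∑ a ∈ hSf.toFinset, ((∑ α ∈ (hALf a).toFinset.filter (fun α => (a, α) ∈ GG Q κ N Y d 1), wt Q w a α) +
        MW w * ∑ g ∈ gR w N d, (((hALf a).toFinset.filter (fun α => (a, α) ∈ GB Q κ N Y d g)).card : ℝ)) :=
        Finset.sum_le_sum hone
    _ = (∑ a ∈ hSf.toFinset, ∑ α ∈ (hALf a).toFinset.filter (fun α => (a, α) ∈ GG Q κ N Y d 1), wt Q w a α) +
        MW w * ∑ g ∈ gR w N d, ∑ a ∈ hSf.toFinset,
          (((hALf a).toFinset.filter (fun α => (a, α) ∈ GB Q κ N Y d g)).card : ℝ) := by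
        rw [Finset.sum_add_distrib, ← Finset.mul_sum, Finset.sum_comm]
    _ ≤ _ := by
        apply add_le_add
        · exact SUA_sum hSf.toFinset (fun a => (hALf a).toFinset.filter (fun α => (a, α) ∈ GG Q κ N Y d 1))
            (GG Q κ N Y d 1) (hGGf 1) (fun x => wt Q w x.1 x.2) (fun x => (hSMW.2.2.2 K Q w x.1 x.2).1)
            (fun a _ b hb => (Finset.mem_filter.1 hb).2)
        · apply mul_le_mul_of_nonneg_left _ hM0.le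
          apply Finset.sum_le_sum
          intro g _
          exact SUA_card hSf.toFinset (fun a => (hALf a).toFinset.filter (fun α => (a, α) ∈ GB Q κ N Y d g))
            (GB Q κ N Y d g) (hGBf g) (fun a _ b hb => (Finset.mem_filter.1 hb).2)

end Pool.Agent.T5
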