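import Pool.Agent.helper82.T5.SpecS

set_option autoImplicit false

namespace Pool.Agent.T5

open Finset NumberField Pool.Agent.helper3.FT Pool.Agent.helper47.RA

theorem SUE_split (d N Y : ℝ) (hN : 0 < N) :
    Y * N ^ (1 / 2 + d) = N ^ d * (Y * √N) := by
  rw [Real.rpow_add hN, Real.sqrt_eq_rpow]; ring

theorem SUE_small (c ε : ℝ) (hc : 0 < c) (hε : 0 < ε) :
    ∃ N₀ : ℝ, ∀ N : ℝ, N₀ ≤ N → N ^ (-c) ≤ ε := by
  have h := (tendsto_rpow_neg_atTop hc).eventually (ge_mem_nhds hε)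
  obtain ⟨N₀, h⟩ := Filter.eventually_atTop.1 h
  exact ⟨N₀, h⟩

theorem SUE_mem {N : ℝ} {D : ℤ} (h : D ∈ DN N) :
    IsFund D ∧ N / 2 < -(D : ℝ) ∧ -(D : ℝ) ≤ N ∧ D < 0 := by
  classical
  unfold DN at h
  rw [Finset.mem_filter, Finset.mem_Icc] at h
  obtain ⟨⟨h1, h2⟩, h3, h4⟩ := h
  refine ⟨h3, h4, ?_, by omega⟩
  have h5 : -D ≤ ⌊N⌋ := by omega
  have h6 : ((-D : ℤ) : ℝ) ≤ N := Int.le_floor.1 h5
  push_cast at h6
  exact h6

/-- the inequality for one discriminant -/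
theorem SUE_D (w : ℕ) (κ N Y d L B : ℝ)
    (h : ∀ (K : Type) [Field K] [NumberField K] (Q : QF K), Module.finrank ℚ K = 2 →
      N / 2 < -(Q.D : ℝ) → -(Q.D : ℝ) ≤ N →
      L * (((IA K Y).ncard : ℝ) - ((EX Q Y B).ncard : ℝ)) ≤
        (∑ᶠ x ∈ GG Q κ N Y d 1, wt Q w x.1 x.2) + MW w * ∑ g ∈ gR w N d, ((GB Q κ N Y d g).ncard : ℝ))
    (D : ℤ) (hD : D ∈ DN N) :
    L * ((cA D Y : ℝ) - (cE D Y B : ℝ)) ≤
      SF (fun _ E => ∑ᶠ x ∈ GG E.Q κ N Y d 1, wt E.Q w x.1 x.2) D +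
        MW w * ∑ g ∈ gR w N d, SF (fun _ E => ((GB E.Q κ N Y d g).ncard : ℝ)) D := by
  obtain ⟨h1, h2, h3, h4⟩ := SUE_mem hD
  by_cases hne : Nonempty (Fld D)
  · have e1 : cA D Y = (IA hne.some.K Y).ncard := by unfold cA; rw [dif_pos hne]
    have e2 : cE D Y B = (EX hne.some.Q Y B).ncard := by unfold cE; rw [dif_pos hne]
    have e3 : SF (fun _ E => ∑ᶠ x ∈ GG E.Q κ N Y d 1, wt E.Q w x.1 x.2) D =
        ∑ᶠ x ∈ GG hne.some.Q κ N Y d 1, wt hne.some.Q w x.1 x.2 := by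
      unfold SF; rw [dif_pos hne]
    have e4 : ∀ g : ℕ, SF (fun _ E => ((GB E.Q κ N Y d g).ncard : ℝ)) D =
        ((GB hne.some.Q κ N Y d g).ncard : ℝ) := by
      intro g; unfold SF; rw [dif_pos hne]
    rw [e1, e2, e3]
    simp only [e4]
    have hq : hne.some.Q.D = D := hne.some.hD
    exact h hne.some.K hne.some.Q hne.some.fin (by rw [hq]; exact h2) (by rw [hq]; exact h3)
  · have e1 : cA D Y = 0 := by unfold cA; rw [dif_neg hne]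
    have e2 : cE D Y B = 0 := by unfold cE; rw [dif_neg hne]
    have e3 : SF (fun _ E => ∑ᶠ x ∈ GG E.Q κ N Y d 1, wt E.Q w x.1 x.2) D = 0 := by
      unfold SF; rw [dif_neg hne]
    have e4 : ∀ g : ℕ, SF (fun _ E => ((GB E.Q κ N Y d g).ncard : ℝ)) D = 0 := by
      intro g; unfold SF; rw [dif_neg hne]
    rw [e1, e2, e3]
    simp only [e4]
    simp

theorem SUE_final (pi A E S T W Nd X M C₁ C₂ κ ε m s wi sw : ℝ) (hA : 0 ≤ A) (hE : 0 ≤ E) (hNd : 0 < Nd) (hX : 0 ≤ X)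
    (hM : 1 ≤ M) (hC₁ : 1 ≤ C₁) (hC₂ : 1 ≤ C₂) (hκ : 0 < κ) (hε : 0 < ε) (hwi : 0 ≤ wi) (hws : wi ≤ sw)
    (hm : m = M * sw)
    (h1 : (pi - (C₁ * κ + M * (C₁ * wi) + ε / 4)) * Nd * (A - E) ≤ S + M * T)
    (h2 : S ≤ W) (h3 : T ≤ (C₂ * sw + ε / (4 * M)) * (Nd * X))
    (h4 : |W - Nd * X * s| ≤ ε / 4 * (Nd * X)) (h5 : pi * E ≤ ε / 4 * X) :
    (pi - (C₁ * κ + (C₁ + C₂) * m + ε)) * A ≤ (s + (C₁ + C₂) * m + ε) * X := by
  have hW : W ≤ Nd * X * s + ε / 4 * (Nd * X) := by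
    have := (abs_le.1 h4).2
    linarith
  have hM0 : 0 < M := by linarith
  have hMT : M * T ≤ (C₂ * m + ε / 4) * (Nd * X) := by
    calc M * T ≤ M * ((C₂ * sw + ε / (4 * M)) * (Nd * X)) := mul_le_mul_of_nonneg_left h3 hM0.le
      _ = (C₂ * m + ε / 4) * (Nd * X) := by rw [hm]; field_simp
  have h6 : Nd * ((pi - (C₁ * κ + M * (C₁ * wi) + ε / 4)) * (A - E)) ≤
      Nd * ((s + ε / 4 + (C₂ * m + ε / 4)) * X) := by
    calc Nd * ((pi - (C₁ * κ + M * (C₁ * wi) + ε / 4)) * (A - E))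
        = (pi - (C₁ * κ + M * (C₁ * wi) + ε / 4)) * Nd * (A - E) := by ring
      _ ≤ S + M * T := h1
      _ ≤ (Nd * X * s + ε / 4 * (Nd * X)) + (C₂ * m + ε / 4) * (Nd * X) := by linarith
      _ = _ := by ring
  have h7 : (pi - (C₁ * κ + M * (C₁ * wi) + ε / 4)) * (A - E) ≤
      (s + ε / 4 + (C₂ * m + ε / 4)) * X := le_of_mul_le_mul_left h6 hNd
  have hm0 : 0 ≤ m := by rw [hm]; exact mul_nonneg hM0.le (hwi.trans hws)
  have h8 : M * (C₁ * wi) ≤ C₁ * m := by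
    rw [hm]
    have : M * wi ≤ M * sw := mul_le_mul_of_nonneg_left hws hM0.le
    nlinarith
  have h9 : 0 ≤ M * (C₁ * wi) := by positivity
  have h10 : (C₁ * κ + M * (C₁ * wi) + ε / 4) * A ≤ (C₁ * κ + (C₁ + C₂) * m + ε) * A := by
    apply mul_le_mul_of_nonneg_right _ hA
    nlinarith [mul_nonneg (by linarith : (0:ℝ) ≤ C₂) hm0]
  have h11 : 0 ≤ (C₁ * κ + M * (C₁ * wi) + ε / 4) * E := by
    apply mul_nonneg _ hE
    have : 0 ≤ C₁ * κ := by positivity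
    linarith
  have h12 : (C₂ * m) * X ≤ ((C₁ + C₂) * m) * X := by
    apply mul_le_mul_of_nonneg_right _ hX
    nlinarith
  have h13 : 0 ≤ ε * X := mul_nonneg hε.le hX
  nlinarith

theorem SUE (hSUA : ∀ d : ℝ, SUA_stmt d) (hSUB : SUB_stmt) (hSUD : ∀ δ : ℝ, SUD_stmt δ)
    (hSFA : SFA_stmt) (hSFC : SFC_stmt) (hSMW : SMW_stmt) : ∀ δ : ℝ, SUE_stmt δ := by
  intro δ hδ hδ1 hALG hL1 hL2 hLB hBT hEXC μ hTAS
  have hd : 0 < δ / 100 := by positivity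
  obtain ⟨C₁, hC₁, hA⟩ := hSUA (δ / 100) hd hL1 hL2 hLB
  refine ⟨C₁, hC₁, fun κ hκ hκ1 => ?_⟩
  obtain ⟨C₂, hC₂, hB⟩ := hSUD δ hδ hδ1 hALG hBT κ hκ
  refine ⟨C₁ + C₂, by linarith, fun w hw ε hε => ?_⟩
  have hM : 1 ≤ MW w := hSMW.1 w
  have hM0 : 0 < MW w := by linarith
  obtain ⟨N₁, h1⟩ := hA κ hκ hκ1 w hw (ε / 4) (by positivity)
  obtain ⟨N₂, h2⟩ := hB w hw (ε / (4 * MW w)) (by positivity)
  obtain ⟨N₃, h3⟩ := hTAS κ hκ hκ1 w hw (ε / 4) (by positivity)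
  obtain ⟨c, N₄, hc, h4⟩ := hEXC
  obtain ⟨N₅, h5⟩ := SUE_small c (ε / 4 / Real.pi) hc (by positivity)
  refine ⟨max (max (max N₁ N₂) (max N₃ N₄)) (max N₅ 10), fun N Y hN hY1 hY2 => ?_⟩
  have hN1 : N₁ ≤ N := le_trans (le_trans (le_trans (le_max_left _ _) (le_max_left _ _)) (le_max_left _ _)) hN
  have hN2 : N₂ ≤ N := le_trans (le_trans (le_trans (le_max_right _ _) (le_max_left _ _)) (le_max_left _ _)) hN
  have hN3 : N₃ ≤ N := le_trans (le_trans (le_trans (le_max_left _ _) (le_max_right _ _)) (le_max_left _ _)) hN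
  have hN4 : N₄ ≤ N := le_trans (le_trans (le_trans (le_max_right _ _) (le_max_right _ _)) (le_max_left _ _)) hN
  have hN5 : N₅ ≤ N := le_trans (le_trans (le_max_left _ _) (le_max_right _ _)) hN
  have hN10 : 10 ≤ N := le_trans (le_trans (le_max_right _ _) (le_max_right _ _)) hN
  have hN0 : 0 < N := by linarith
  have hY0 : 0 < Y := lt_of_lt_of_le (Real.rpow_pos_of_pos hN0 _) hY1
  have hYN : Y ≤ N := by
    refine hY2.trans ?_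
    calc N ^ (1 / 2 - δ) ≤ N ^ (1 : ℝ) := Real.rpow_le_rpow_of_exponent_le (by linarith) (by linarith)
      _ = N := Real.rpow_one N
  have hY20 : 0 < N ^ (1 / 2 + δ / 100) := Real.rpow_pos_of_pos hN0 _
  have hfin := hSFC κ N Y (N ^ (1 / 2 + δ / 100)) hκ hN0 hY0 hY20
  have hFm : ∀ t, t ∈ hfin.toFinset ↔ Cen κ N Y (N ^ (1 / 2 + δ / 100)) t := fun t => by
    rw [Set.Finite.mem_toFinset]; rfl
  have k3 := h3 N Y hN3 hY1 hY2 hfin.toFinset hFm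
  have k2 := h2 N Y hN2 hY1 hY2
  have k4 := h4 N Y hN4 hY1 hY2
  have k5 := h5 N hN5
  have kB := hSUB hALG (δ / 100) κ N Y hd hκ hN10 hY0 w hfin.toFinset (fun t ht => (hFm t).2 ht)
  have hhalf : (1 / 2 - δ / 100 / 2 : ℝ) = 1 / 2 - δ / 200 := by ring
  have kD := fun D hD => SUE_D w κ N Y (δ / 100)
    ((Real.pi - (C₁ * κ + MW w * (C₁ / w) + ε / 4)) * N ^ (δ / 100)) (N ^ (1 / 2 - δ / 200))
    (by
      intro K _ _ Q hfr g1 g2
      have := h1 K Q N Y hfr hN1 g1 g2 hYN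
      rw [hhalf] at this
      exact this) D hD
  have kS := Finset.sum_le_sum kD
  rw [← Finset.mul_sum, Finset.sum_sub_distrib, Finset.sum_add_distrib, ← Finset.mul_sum,
    Finset.sum_comm] at kS
  have hsplit := SUE_split (δ / 100) N Y hN0
  rw [hsplit] at k3 k2
  have hE0 : (0 : ℝ) ≤ ∑ D ∈ DN N, (cE D Y (N ^ (1 / 2 - δ / 200)) : ℝ) :=
    Finset.sum_nonneg (fun _ _ => Nat.cast_nonneg _)
  have hX0 : 0 ≤ Y * √N := by positivity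
  have hw0 : (0 : ℝ) < w := by
    have : 0 < w := by omega
    exact_mod_cast this
  refine SUE_final Real.pi _ (∑ D ∈ DN N, (cE D Y (N ^ (1 / 2 - δ / 200)) : ℝ))
    (∑ D ∈ DN N, SF (fun _ E => ∑ᶠ x ∈ GG E.Q κ N Y (δ / 100) 1, wt E.Q w x.1 x.2) D)
    (∑ g ∈ gR w N (δ / 100), ∑ D ∈ DN N, SF (fun _ E => ((GB E.Q κ N Y (δ / 100) g).ncard : ℝ)) D)
    (∑ t ∈ hfin.toFinset, fw w t)
    (N ^ (δ / 100)) (Y * √N) (MW w) C₁ C₂ κ ε (MW w / √(w : ℝ)) _ (1 / (w : ℝ)) (1 / √(w : ℝ))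
    (Finset.sum_nonneg (fun _ _ => Nat.cast_nonneg _)) hE0
    (Real.rpow_pos_of_pos hN0 _) hX0 hM hC₁ hC₂ hκ hε (by positivity) ?_ ?_ ?_ kB ?_ k3 ?_
  · -- 1 / w ≤ 1 / √w
    apply one_div_le_one_div_of_le (Real.sqrt_pos.2 hw0)
    rw [Real.sqrt_le_left hw0.le]
    have h1w : (1 : ℝ) ≤ w := by
      have : 1 ≤ w := by omega
      exact_mod_cast this
    nlinarith
  · ring
  · calc _ = (Real.pi - (C₁ * κ + MW w * (C₁ / w) + ε / 4)) * N ^ (δ / 100) *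
          (∑ D ∈ DN N, (cA D Y : ℝ) - ∑ D ∈ DN N, (cE D Y (N ^ (1 / 2 - δ / 200)) : ℝ)) := by
            rw [show C₁ * (1 / (w : ℝ)) = C₁ / w by ring]
      _ ≤ _ := kS
  · calc _ ≤ _ := k2
      _ = _ := by rw [show C₂ * (1 / √(w : ℝ)) = C₂ / √(w : ℝ) by ring]
  · calc Real.pi * ∑ D ∈ DN N, (cE D Y (N ^ (1 / 2 - δ / 200)) : ℝ)
        ≤ Real.pi * (N ^ (-c) * (Y * √N)) := mul_le_mul_of_nonneg_left k4 Real.pi_pos.le
      _ ≤ Real.pi * (ε / 4 / Real.pi * (Y * √N)) := by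
          apply mul_le_mul_of_nonneg_left _ Real.pi_pos.le
          exact mul_le_mul_of_nonneg_right k5 hX0
      _ = ε / 4 * (Y * √N) := by
          have := Real.pi_pos
          field_simp

end Pool.Agent.T5
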