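import Pool.Agent.helper5.T5.SFA
import Pool.Agent.helper5.T5.SFC
import Pool.Agent.helper78.T5.SMW
import Pool.Agent.helper5.T5.SEU
import Pool.Agent.helper18.T5.STA
import Pool.Agent.helper52.T5.SFP
import Pool.Agent.helper5.T5.STW
import Pool.Agent.helper24.T5.SUB
import Pool.Agent.helper20.T5.SUC
import Pool.Agent.helper56.T5.SUD
import Pool.Agent.helper82.T5.SUE
import Pool.Agent.helper20.T5.SLUA
import Pool.Agent.helper92.T5.SLA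
import Pool.Agent.helper3.T5.SLB
import Pool.Agent.helper3.T5.SLC
import Pool.Agent.helper82.T5.SLD
import Pool.Agent.helper56.T5.SLLA
import Pool.Agent.helper5.T5.SQ0
import Pool.Agent.helper68.T5.SQ1
import Pool.Agent.helper68.T5.SQ3
import Pool.Agent.helper84.T5.SQ4
import Pool.Agent.helper49.T5.ST1
import Pool.Agent.helper31.T5.SBT
import Pool.Agent.helper5.T5.SR2
import Pool.Agent.helper27.T5.SQ2
import Pool.Agent.helper61.T5.SR1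
import Pool.Agent.helper61.T5.SMA
import Pool.Agent.helper44.T5.SR3
import Pool.Agent.helper3.T5.AllA
import Pool.Agent.helper82.T5.SUA
import Pool.Agent.helper23.T5.SC1
import Pool.Agent.helper23.T5.SC2
import Pool.Agent.helper56.T5.SC3
import Pool.Agent.helper78.T5.SCM

set_option autoImplicit false

/-!
# T5 (MP_16912e_nt), block S: composition of the 29 rows of `SpecS`

`SFin`: `MAIN_stmt` from the statements of the other blocks.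
-/

namespace Pool.Agent.T5

open Finset NumberField Pool.Agent.helper3.FT Pool.Agent.helper47.RA

theorem T3w_of_T3 (δ : ℝ) (h : T3_stmt δ) : T3w_stmt δ := by
  intro κ hκ
  obtain ⟨c, N₀, hc, h1⟩ := h κ hκ
  refine ⟨c, N₀, hc, fun N Y hN hY1 hY2 F hF => h1 N Y hN hY1 hY2 F (fun t ht => ?_)⟩
  obtain ⟨h2, f, D₀, h3, h4, h5, h6⟩ := hF t ht
  exact ⟨h2, f, D₀, h3, h4, fun p hp hpf => (h5 p hp hpf).1, h6⟩

/-- block S: the slices, `MAIN_stmt` and `MAIN2_stmt` from the statements of the other blocks (L, E, T3, T4, U, TAS) -/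
theorem SFin (hL1 : ∀ d : ℝ, 0 < d → L1_stmt d) (hL2 : ∀ d : ℝ, 0 < d → L2_stmt d)
    (hLB : ∀ d : ℝ, 0 < d → LB_stmt d) (hLE : ∀ d : ℝ, 0 < d → LE_stmt d)
    (hE1 : ∀ δ : ℝ, 0 < δ → δ ≤ 1 / 10 → EQUB1_stmt δ) (hE2 : ∀ δ : ℝ, 0 < δ → δ ≤ 1 / 10 → EQUB2_stmt δ)
    (hTW : ∀ δ : ℝ, 0 < δ → δ ≤ 1 / 10 → TW_stmt δ) (hT3 : ∀ δ : ℝ, 0 < δ → δ ≤ 1 / 10 → T3_stmt δ)
    (hT4 : ∀ δ : ℝ, 0 < δ → δ ≤ 1 / 10 → T4_stmt δ) (hEXC : ∀ δ : ℝ, 0 < δ → δ ≤ 1 / 10 → EXC_stmt δ)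
    (hU : U_stmt) (hTAS : ∀ δ : ℝ, 0 < δ → δ ≤ 1 / 10 → TAS_stmt δ) :
    (∀ δ : ℝ, 0 < δ → δ ≤ 1 / 10 → SLU_stmt δ) ∧ (∀ δ : ℝ, 0 < δ → δ ≤ 1 / 10 → SLL_stmt δ) ∧
      MAIN_stmt ∧ MAIN2_stmt := by
  have hALG := all_ALG
  have hA := AIST
  have hSFA := SFA
  have hSFC := SFC hA
  have hSFP := SFP hA
  have hSTW := STW hA
  have hSUB := SUB ACEN hSFA SMW
  have hSUD := SUD (SUC ACEN hSFA) STA
  have hSUA := SUA hSFA SMW AGEX all_AALW AFUL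
  have hSUE := SUE hSUA hSUB hSUD hSFA hSFC SMW
  have hSLUA := SLUA hSUE SMW SEU
  have hSLB := SLB hSFA SMW
  have hSLC := SLC hA hSFP hSTW
  have hSLD := SLD (SLA hSFA SMW) hSLB hSLC hSFA hSFC SMW
  have hSLLA := SLLA hSLD SMW SEU
  have hST1 := ST1 (SQ0 hA) (SQ2 SQ1) (SQ4 hA) STA
  have hSBT := SBT (SQ0 hA) (SQ3 SQ1)
  have hSLU : ∀ δ : ℝ, 0 < δ → δ ≤ 1 / 10 → SLU_stmt δ := by
    intro δ h1 h2
    have hd : 0 < δ / 100 := by positivity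
    exact hSLUA δ h1 h2 hALG (hL1 _ hd) (hL2 _ hd) (hLB _ hd) (hSBT δ h1 h2 (hE1 δ h1 h2)) (hEXC δ h1 h2)
      (hTAS δ h1 h2)
  have hSLL : ∀ δ : ℝ, 0 < δ → δ ≤ 1 / 10 → SLL_stmt δ := by
    intro δ h1 h2
    have hd : 0 < δ / 100 := by positivity
    exact hSLLA δ h1 h2 hALG (hL1 _ hd) (hLE _ hd) (hEXC δ h1 h2) (hST1 δ h1 h2 (hE1 δ h1 h2) (hE2 δ h1 h2))
      (hTW δ h1 h2) (T3w_of_T3 δ (hT3 δ h1 h2)) (hT4 δ h1 h2) (hTAS δ h1 h2)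
  exact ⟨hSLU, hSLL, SMA (SR2 SR1 hSFA) SR3 hSLU hSLL hU, SCM (SC2 SC1 hSFA) SC3 hSLU hSLL hU⟩

end Pool.Agent.T5
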